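import Pool.Agent.Helper34.TY.XFilt

/-!
MP_8ee768_co, project TH-Y', stage X: `xf_sound : XFSound 576 okC xf`.
-/

set_option autoImplicit false
set_option maxRecDepth 20000
set_option exponentiation.threshold 1000

namespace Pool.Agent.Helper34.TY

open Finset
open Pool.Agent.Helper63.SIMD
open Pool.Agent.Helper89.CV (OddCover ofMask)
open Pool.Agent.Helper97.CV Pool.Agent.Helper4.CV Pool.Agent.Helper79.CV
open Pool.Agent.Helper74.TY Pool.Agent.Helper62.TY

theorem addE (a b : ℕ) : Nat.add a b = a + b := rfl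

/-! ## Consequences of the tables -/

theorem c4_eq {P m : ℕ} (hP : P ∈ L 11 3) (hm : m ∈ L 11 4) :
    c4 (spr P) (cz (spr P)) (spr m) = cof P m := by
  have h := chk4_all
  rw [List.all_eq_true] at h
  have h1 := h P hP
  unfold chk4 at h1
  rw [List.all_eq_true] at h1
  exact Nat.eq_of_beq_eq_true (h1 m hm)

theorem sum2_eq (SP C0 t : ℕ) (l : List ℕ) :
    sum2 SP C0 t l = (l.map fun u => if u &&& t = u then c2 SP C0 (spr u) else 0).sum := by
  induction l with
  | nil => rfl
  | cons u l ih =>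
    rw [List.map_cons, List.sum_cons, ← ih]
    show brN (Nat.beq (Nat.land u t) u) (Nat.add (c2 SP C0 (spr u)) (sum2 SP C0 t l))
      (sum2 SP C0 t l) = _
    rw [brN_beq]
    have h1 : Nat.land u t = u &&& t := rfl
    rw [h1]
    split_ifs
    · rfl
    · rw [Nat.zero_add]

theorem c2_sum {P t : ℕ} (hP : P ∈ L 11 3) (ht : t ∈ L 11 3) :
    ((L 11 2).map fun u => if u &&& t = u then c2 (spr P) (cz (spr P)) (spr u) else 0).sum =
      cof P (t + 2048) := by
  have h := chk2_all
  rw [List.all_eq_true] at h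
  have h1 := h P hP
  unfold chk2 at h1
  rw [List.all_eq_true] at h1
  rw [← sum2_eq]
  exact Nat.eq_of_beq_eq_true (h1 t ht)

theorem c2_lt {P u : ℕ} (hP : P ∈ L 11 3) (hu : u ∈ L 11 2) :
    c2 (spr P) (cz (spr P)) (spr u) < 2 ^ 48 := by
  have h := chk1_all
  rw [List.all_eq_true] at h
  have h1 := h P hP
  unfold chk1 at h1
  rw [List.all_eq_true] at h1
  have h2 := h1 u hu
  rw [Bool.and_eq_true] at h2
  have h3 : Nat.ble (c2 (spr P) (cz (spr P)) (spr u) + 1) 0x1000000000000 = true := h2.2
  have h4 := Nat.le_of_ble_eq_true h3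
  have h5 : (2 : ℕ) ^ 48 = 0x1000000000000 := by norm_num
  omega

theorem thr_eq {P : ℕ} (hP : P ∈ L 11 3) :
    thr (spr P) + 4 * ((L 11 2).map fun u => c2 (spr P) (cz (spr P)) (spr u)).sum =
      2 ^ 60 + thrs P := by
  have h := chkT_all
  rw [List.all_eq_true] at h
  have h1 := Nat.eq_of_beq_eq_true (h P hP)
  have h2 : ∀ l : List ℕ, l.foldr (fun u s => Nat.add (c2 (spr P) (cz (spr P)) (spr u)) s) 0 =
      (l.map fun u => c2 (spr P) (cz (spr P)) (spr u)).sum := by
    intro l
    induction l with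
    | nil => rfl
    | cons a l ih =>
      rw [List.foldr_cons, ih, List.map_cons, List.sum_cons]
      rfl
  rw [h2] at h1
  exact h1

theorem thrs_eq (P : ℕ) : thrs P = pk 4 12 (fun j => 7 - cap P j) := by
  have h : ∀ n : ℕ, @Nat.rec (fun _ => ℕ) 0 (fun j ih => Nat.add ih (Nat.mul (Nat.pow 16 j)
      (brN (Nat.beq j 11) 6 (brN (Nat.beq (Nat.land (Nat.shiftRight P j) 1) 0) 5 6)))) n =
      pk 4 n (fun j => 7 - cap P j) := by
    intro n
    induction n with
    | zero => rfl
    | succ n ih =>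
      rw [pk_succ, ← ih]
      have h1 : (16 : ℕ) ^ n = 2 ^ (4 * n) := by rw [pow_mul]; norm_num
      have h2 : brN (Nat.beq n 11) 6 (brN (Nat.beq (Nat.land (Nat.shiftRight P n) 1) 0) 5 6) =
          7 - cap P n := by
        rw [brN_beq, brN_beq]
        unfold cap
        by_cases h3 : n = 11
        · rw [if_pos h3, if_pos h3]
        · rw [if_neg h3, if_neg h3]
          by_cases h4 : P.testBit n = true
          · rw [if_neg ((testBit_iff P n).1 h4), if_pos h4]
          · rw [if_neg h4, if_pos (by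
              by_contra h5
              exact h4 ((testBit_iff P n).2 h5))]
      show _ + 16 ^ n * brN (Nat.beq n 11) 6
        (brN (Nat.beq (Nat.land (Nat.shiftRight P n) 1) 0) 5 6) = _
      rw [h1, h2, mul_comm (2 ^ (4 * n))]
  exact h 12

theorem cofj_lt (P j q : ℕ) : cofj P j q < 16 := by
  have h1 : ∀ i, phiN i < 16 := fun i => lt_of_le_of_lt Nat.and_le_right (by norm_num)
  unfold cofj
  rw [brN_eq, brN_eq, brN_eq]
  split_ifs
  · exact h1 _
  · exact h1 _
  · norm_num
  · norm_num

theorem cof_lt (P q : ℕ) : cof P q < 2 ^ 48 := by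
  rw [cof_eq]
  exact pk_lt (W := 4) (N := 12) fun j _ => cofj_lt P j q

theorem sum_pk {W N : ℕ} (l : List ℕ) (a : ℕ → ℕ → ℕ) :
    (l.map fun m => pk W N (a m)).sum = pk W N (fun j => (l.map fun m => a m j).sum) := by
  induction l with
  | nil => simp [pk]
  | cons m l ih =>
    rw [List.map_cons, List.sum_cons, ih, pk_add]
    exact pk_congr fun j _ => by rw [List.map_cons, List.sum_cons]

/-! ## Pair counters -/

theorem prs_eq (m : ℕ) (l : List ℕ) : prs m l =
    pk 4 l.length (fun r => if l.getD r 0 &&& m = l.getD r 0 then 1 else 0) := by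
  induction l with
  | nil => rfl
  | cons u l ih =>
    rw [List.length_cons, pk_cons]
    show 16 * prs m l + brN (Nat.beq (Nat.land u m) u) 1 0 = _
    rw [ih, brN_beq]
    rfl

theorem pcn_list {B : Finset (Finset (Fin 13))} {e : ℕ} (f : ℕ → ℕ) {l : List ℕ} {q : ℕ}
    (h : ∀ i (hi : i < l.length), e.testBit (q + i) = true ↔ ofMask l[i] ∈ link B 11) :
    pcn e (l.map f) q = (l.map fun m => if ofMask m ∈ link B 11 then f m else 0).sum := by
  induction l generalizing q with
  | nil => rfl
  | cons m l ih =>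
    rw [List.map_cons, List.map_cons, List.sum_cons]
    show (e.testBit q).toNat * f m + pcn e (l.map f) (q + 1) = _
    rw [ih fun i hi => by
      have h1 := h (i + 1) (by rw [List.length_cons]; omega)
      rw [show q + (i + 1) = q + 1 + i by omega] at h1
      exact h1]
    have h0 := h 0 (by rw [List.length_cons]; omega)
    rw [Nat.add_zero] at h0
    have h2 : (m :: l)[0] = m := rfl
    rw [h2] at h0
    by_cases hb : e.testBit q = true
    · rw [if_pos (h0.1 hb), hb, Bool.toNat_true, Nat.one_mul]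
    · rw [if_neg fun h3 => hb (h0.2 h3)]
      rw [Bool.not_eq_true] at hb
      rw [hb, Bool.toNat_false, Nat.zero_mul]

section main

variable {B : Finset (Finset (Fin 13))} {Y : Finset (Fin 13)} {P D e : ℕ}

theorem bit_iff (he : enc 11 4 (link B 11) = e % 2 ^ 330) (i : ℕ) (hi : i < (L 11 4).length) :
    e.testBit i = true ↔ ofMask ((L 11 4)[i]) ∈ link B 11 := by
  have h1 : (L 11 4).length = 330 := by rw [length_L]; rfl
  have h2 := testBit_enc (link B 11) hi
  rw [he, Nat.testBit_mod_two_pow, decide_eq_true (by omega), Bool.true_and] at h2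
  rw [h2, decide_eq_true_eq]

theorem deg_le (hX : XVec B 12 Y) (h11 : (11 : Fin 13) ∈ Y) {u : ℕ} (hu : u ∈ L 11 2) :
    deg B u < 16 := by
  have hB := hX.odd
  have hul := lt11 hu
  have h1 := deg_eq hB hu
  have h3 := cnt_link B (x := 11) (s := ofMask u) (notMem11 hul)
  have hKc : (insert 11 (ofMask u)).card = 3 := by
    rw [card_insert_of_notMem (notMem11 hul), card_of_mem (by norm_num) hu]
  have h4 := cnt_triple hB hKc
  have hne : (ofMask u).Nonempty := by
    rw [← card_pos, card_of_mem (by norm_num) hu]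
    norm_num
  obtain ⟨v, hv⟩ := hne
  have hv11 : v.val < 11 := by
    have h2 := mk_lt_iff (n := 11) (s := ofMask u)
    rw [mk_ofMask (lt_of_lt_of_le hul (by norm_num))] at h2
    exact h2.1 hul v hv
  have hvne : v ≠ 11 := by
    rintro rfl
    exact absurd hv11 (by decide)
  have hv12 : v ≠ 12 := by
    rintro rfl
    exact absurd hv11 (by decide)
  have h5 : Lam B (insert 11 (ofMask u)) ≤ Lam B {11, v} := by
    unfold Lam LamW
    refine sum_le_sum_of_subset fun q hq => ?_
    rw [mem_filter] at hq ⊢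
    refine ⟨hq.1, fun a ha => hq.2 ?_⟩
    rw [mem_insert, mem_singleton] at ha
    rcases ha with rfl | rfl
    · exact mem_insert_self _ _
    · exact mem_insert_of_mem hv
  have h6 : Lam B {11, v} ≤ 7 := by
    by_cases hvY : v ∈ Y
    · rw [Lam_light hX h11 hvY (fun h => hvne h.symm)]
      norm_num
    · exact T2h hX h11 hv12 hvY (g := ex B) fun _ _ => le_rfl
  omega

theorem nib_eq (hX : XVec B 12 Y) (h11 : (11 : Fin 13) ∈ Y)
    (he : enc 11 4 (link B 11) = e % 2 ^ 330) (hok : okC e) {r : ℕ} (hr : r < 55) :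
    (e >>> (330 + 4 * r)) &&& 15 = deg B ((L 11 2).getD r 0) := by
  have hlen : (L 11 2).length = 55 := by rw [length_L]; rfl
  have h1 : pcs (e % 2 ^ 330) = pk 4 55 (fun r => deg B ((L 11 2).getD r 0)) := by
    unfold pcs
    rw [cqs_tab, pcn_list (B := B)]
    · have h2 : ∀ m, (if ofMask m ∈ link B 11 then prs m (L 11 2) else 0) =
          pk 4 55 (fun r => if ofMask m ∈ link B 11 ∧
            (L 11 2).getD r 0 &&& m = (L 11 2).getD r 0 then 1 else 0) := by
        intro m
        rw [prs_eq, hlen]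
        by_cases hm : ofMask m ∈ link B 11
        · simp only [hm, if_true, true_and]
        · simp only [hm, if_false, false_and]
          simp [pk]
      simp only [h2]
      rw [sum_pk]
      rfl
    · intro i hi
      rw [Nat.zero_add]
      have h3 : (L 11 4).length = 330 := by rw [length_L]; rfl
      rw [Nat.testBit_mod_two_pow, decide_eq_true (by omega), Bool.true_and]
      exact bit_iff he i hi
  have h2 : (e >>> (330 + 4 * r)) &&& 15 = fld 4 (e / 2 ^ 330) r := by
    have h3 : (15 : ℕ) = 2 ^ 4 - 1 := by norm_num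
    rw [h3, Nat.and_two_pow_sub_one_eq_mod, Nat.shiftRight_eq_div_pow]
    unfold fld
    rw [pow_add, ← Nat.div_div_eq_div_mul]
  unfold okC at hok
  rw [h2, hok, h1]
  refine fld_pk (fun i hi => ?_) hr
  have h3 : (L 11 2).getD i 0 ∈ L 11 2 := by
    rw [List.getD_eq_getElem _ _ (by omega)]
    exact List.getElem_mem _
  exact deg_le hX h11 h3

/-! ## The three sums -/

attribute [local irreducible] cof c2 c4 spr cz thr q4 p2 t3 L ofMask link two

theorem mem_P (hX : XVec B 12 Y) (h11 : (11 : Fin 13) ∈ Y) (hP : P = mk (Y.erase 11)) :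
    P ∈ L 11 3 := by
  rw [mem_L (by norm_num), mask_erase hP, card_erase_of_mem h11, hX.card, hP]
  refine ⟨mk_lt_iff.2 fun a ha => ?_, rfl⟩
  rw [mem_erase] at ha
  have h12 : a ≠ 12 := fun h => hX.notMem (h ▸ ha.2)
  have h3 : a.val ≠ 11 := fun h => ha.1 (Fin.ext h)
  have h4 : a.val ≠ 12 := fun h => h12 (Fin.ext h)
  have := a.isLt
  omega

theorem and_one (e k : ℕ) : (e >>> k) &&& 1 = if e.testBit k = true then 1 else 0 := by
  rw [Nat.and_one_is_mod, Nat.shiftRight_eq_div_pow, Nat.testBit_eq_decide_div_mod_eq]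
  simp only [decide_eq_true_eq]
  split_ifs <;> omega

theorem sum_l1 (hP3 : P ∈ L 11 3) (hD : link B 12 = fam 12 4 D)
    (he : enc 11 4 (link B 11) = e % 2 ^ 330) : sumT 1 e (xl1 D P) =
      ((L 11 4).map fun m =>
        (if ofMask m ∈ link B 12 ∧ ofMask m ∈ link B 11 then 1 else 0) * cof P m).sum := by
  have hlen : (L 11 4).length = 330 := by rw [length_L]; rfl
  unfold xl1
  rw [sumT_scan, sumG_q4, sum_map_getD, hlen]
  show _ + 0 = _
  rw [Nat.add_zero]
  refine sum_congr rfl fun k hk => ?_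
  rw [mem_range] at hk
  have hk4 : k < (L 11 4).length := by omega
  rw [List.getD_eq_getElem _ _ hk4]
  have hm := List.getElem_mem hk4
  have hk12 : k < (L 12 4).length := by
    rw [length_L]
    have : (12 : ℕ).choose 4 = 495 := rfl
    omega
  have h1 : (L 12 4)[k] = (L 11 4)[k] := getElem_L_lt hk4
  have h2 := mem_link12 hD hk12
  rw [h1] at h2
  have h3 := bit_iff he k hk4
  have h4 : (Nat.land (Nat.shiftRight D k) 1 = 0) ↔ ¬ ofMask ((L 11 4)[k]) ∈ link B 12 := by
    rw [← h2, testBit_iff, not_not]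
  have h5 : g4 D (spr P) (cz (spr P)) k (spr ((L 11 4)[k])) =
      if ofMask ((L 11 4)[k]) ∈ link B 12 then cof P ((L 11 4)[k]) else 0 := by
    unfold g4
    rw [brN_beq, c4_eq hP3 hm]
    by_cases a1 : ofMask ((L 11 4)[k]) ∈ link B 12
    · rw [if_pos a1, if_neg fun h => h4.1 h a1]
    · rw [if_neg a1, if_pos (h4.2 a1)]
  rw [h5, and_one]
  clear h5 h4 h2 h1 hk12 hm
  generalize (L 11 4)[k] = m at h3 ⊢
  by_cases a1 : ofMask m ∈ link B 12
  · by_cases a2 : ofMask m ∈ link B 11
    · rw [if_pos a1, if_pos (h3.2 a2), if_pos ⟨a1, a2⟩]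
    · have h6 : ¬ (ofMask m ∈ link B 12 ∧ ofMask m ∈ link B 11) := fun h => a2 h.2
      have h7 : ¬ e.testBit k = true := fun h => a2 (h3.1 h)
      rw [if_neg h7, if_neg h6, Nat.zero_mul, Nat.zero_mul]
  · have h6 : ¬ (ofMask m ∈ link B 12 ∧ ofMask m ∈ link B 11) := fun h => a1 h.1
    rw [if_neg a1, if_neg h6, Nat.mul_zero, Nat.zero_mul]

theorem sum_l2 (hX : XVec B 12 Y) (h11 : (11 : Fin 13) ∈ Y)
    (he : enc 11 4 (link B 11) = e % 2 ^ 330) (hok : okC e) : sumT 15 e (xl2 P) =
      ((L 11 2).map fun u => deg B u * c2 (spr P) (cz (spr P)) (spr u)).sum := by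
  have hlen : (L 11 2).length = 55 := by rw [length_L]; rfl
  unfold xl2
  rw [sumT_scan, sumG_p2, sum_map_getD, hlen]
  show _ + 0 = _
  rw [Nat.add_zero]
  refine sum_congr rfl fun k hk => ?_
  rw [nib_eq hX h11 he hok (mem_range.1 hk)]

/-- the excess of the quad `{11, 12} + u` -/
def exq (B : Finset (Finset (Fin 13))) (u : ℕ) : ℕ := ex B (insert 12 (insert 11 (ofMask u)))

theorem card_exq {u : ℕ} (hu : u ∈ L 11 2) : (insert 12 (insert 11 (ofMask u))).card = 4 := by
  have hul := lt11 hu
  rw [card_insert_of_notMem, card_insert_of_notMem (notMem11 hul), card_of_mem (by norm_num) hu]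
  rw [mem_insert, not_or]
  exact ⟨by decide, notMem12 (by omega)⟩

theorem exq_le (hX : XVec B 12 Y) {u : ℕ} (hu : u ∈ L 11 2) : exq B u ≤ 1 := by
  have h1 := T2x hX (v := 11) (by decide) (g := ex B) fun _ _ => le_rfl
  refine le_trans ?_ h1
  unfold exq LamW
  refine single_le_sum (f := ex B) (fun _ _ => Nat.zero_le _) ?_
  rw [mem_filter, mem_quads]
  refine ⟨card_exq hu, fun a ha => ?_⟩
  rw [mem_insert, mem_singleton] at ha
  rcases ha with rfl | rfl
  · exact mem_insert_self _ _
  · exact mem_insert_of_mem (mem_insert_self _ _)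

/-- bad quad `12 + t` -/
def badx (B : Finset (Finset (Fin 13))) (t : ℕ) : ℕ := if 1 ≤ ex B (ofMask (t + 4096)) then 1 else 0

theorem sum_base (hX : XVec B 12 Y) (hD : link B 12 = fam 12 4 D) :
    base D P (spr P) (cz (spr P)) t3 =
      ((L 12 3).map fun t => badx B t * cof P (t + 4096)).sum +
        ((L 11 2).map fun u => exq B u * c2 (spr P) (cz (spr P)) (spr u)).sum := by
  rw [t3_eq, base_mkT, sum_split3, sum_split3 fun t => badx B t * cof P (t + 4096), add_assoc,
    ← sum_map_add]
  have hin3 : ∀ t ∈ L 11 3, t ∈ L 12 3 := fun t ht => by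
    rw [mem_L (by norm_num)] at ht ⊢
    exact ⟨lt_of_lt_of_le ht.1 (by norm_num), ht.2⟩
  have hin2 : ∀ u ∈ L 11 2, u + 2048 ∈ L 12 3 := fun u hu => by
    have hul := lt11 hu
    rw [mem_L (by norm_num), ofMask_2048' hul, card_insert_of_notMem (notMem11 hul),
      card_of_mem (by norm_num) hu]
    exact ⟨by omega, rfl⟩
  congr 1
  · refine sum_map_congr fun t ht => ?_
    have htl := lt11 ht
    have h1 := two_iff hD (hin3 t ht)
    have h2 : cofX P (spr P) (cz (spr P)) (4096 + t) = cof P (t + 4096) := by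
      unfold cofX
      have h3 : Nat.blt (4096 + t) 6144 = true := Nat.ble_eq_true_of_le (by omega)
      rw [h3, brN_true, Nat.add_comm 4096 t, addE, Nat.add_zero]
    rw [h2]
    unfold badx
    rw [Nat.add_comm t 4096]
    by_cases h3 : 1 ≤ ex B (ofMask (4096 + t))
    · rw [if_neg (by rw [h1.2 h3]; exact Bool.false_ne_true), if_pos h3, Nat.one_mul]
    · rw [if_neg h3, Nat.zero_mul, if_pos]
      by_contra h4
      rw [Bool.not_eq_true] at h4
      exact h3 (h1.1 h4)
  · refine sum_map_congr fun u hu => ?_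
    have hul := lt11 hu
    have h1 := two_iff hD (hin2 u hu)
    have hof : ofMask (4096 + (u + 2048)) = insert 12 (insert 11 (ofMask u)) := by
      rw [ofMask_4096 (by omega), ofMask_2048' hul]
    have h2 : cofX P (spr P) (cz (spr P)) (4096 + (u + 2048)) =
        cof P (u + 2048 + 4096) + c2 (spr P) (cz (spr P)) (spr u) := by
      unfold cofX
      have h3 : Nat.blt (4096 + (u + 2048)) 6144 = false := by
        rw [← Bool.not_eq_true]
        intro h4
        have := Nat.le_of_ble_eq_true h4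
        omega
      have h4 : Nat.sub (4096 + (u + 2048)) 6144 = u := by
        show 4096 + (u + 2048) - 6144 = u
        omega
      rw [h3, brN_false, h4, Nat.add_comm 4096 (u + 2048), addE]
    rw [h2]
    unfold badx
    rw [hof] at h1
    rw [Nat.add_comm (u + 2048) 4096, hof]
    have h5 := exq_le hX hu
    by_cases h3 : 1 ≤ exq B u
    · have h6 : exq B u = 1 := by omega
      have h7 : 1 ≤ ex B (insert 12 (insert 11 (ofMask u))) := h3
      rw [if_neg (by rw [h1.2 h7]; exact Bool.false_ne_true), if_pos h7, h6, Nat.one_mul,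
        Nat.one_mul]
    · have h6 : exq B u = 0 := by omega
      have h7 : ¬ 1 ≤ ex B (insert 12 (insert 11 (ofMask u))) := h3
      rw [if_neg h7, h6, Nat.zero_mul, Nat.zero_mul, if_pos]
      by_contra h4
      rw [Bool.not_eq_true] at h4
      exact h3 (h1.1 h4)

/-! ## The value of a lane -/

/-- a double sum over pairs and triples -/
theorem sum_psum (hP3 : P ∈ L 11 3) :
    ((L 11 2).map fun u => psum B u * c2 (spr P) (cz (spr P)) (spr u)).sum =
      ((L 11 3).map fun t => ex B (ofMask (t + 2048)) * cof P (t + 2048)).sum := by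
  have h1 : ((L 11 3).map fun t => ex B (ofMask (t + 2048)) * cof P (t + 2048)).sum =
      ((L 11 3).map fun t => ex B (ofMask (t + 2048)) *
        ((L 11 2).map fun u => if u &&& t = u then c2 (spr P) (cz (spr P)) (spr u) else 0).sum).sum :=
    sum_map_congr fun t ht => by rw [c2_sum hP3 ht]
  rw [h1, ← List.sum_toFinset _ (nodup_L 11 2), ← List.sum_toFinset _ (nodup_L 11 3)]
  have h2 : ∀ u, psum B u * c2 (spr P) (cz (spr P)) (spr u) = ∑ t ∈ (L 11 3).toFinset,
      if u &&& t = u then ex B (ofMask (t + 2048)) * c2 (spr P) (cz (spr P)) (spr u) else 0 := by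
    intro u
    unfold psum
    rw [← List.sum_toFinset _ (nodup_L 11 3), sum_mul]
    refine sum_congr rfl fun t _ => ?_
    split_ifs
    · rfl
    · rw [Nat.zero_mul]
  have h3 : ∀ t, ex B (ofMask (t + 2048)) *
      ((L 11 2).map fun u => if u &&& t = u then c2 (spr P) (cz (spr P)) (spr u) else 0).sum =
      ∑ u ∈ (L 11 2).toFinset,
      if u &&& t = u then ex B (ofMask (t + 2048)) * c2 (spr P) (cz (spr P)) (spr u) else 0 := by
    intro t
    rw [← List.sum_toFinset _ (nodup_L 11 2), mul_sum]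
    refine sum_congr rfl fun u _ => ?_
    split_ifs
    · rfl
    · rw [Nat.mul_zero]
  simp only [h2, h3]
  exact sum_comm

/-- the three sums of known bad quads -/
def val (B : Finset (Finset (Fin 13))) (f : ℕ → ℕ) : ℕ :=
  ((L 12 3).map fun t => badx B t * f (t + 4096)).sum +
    ((L 11 4).map fun m =>
      (if ofMask m ∈ link B 12 ∧ ofMask m ∈ link B 11 then 1 else 0) * f m).sum +
    ((L 11 3).map fun t => ex B (ofMask (t + 2048)) * f (t + 2048)).sum

theorem val_le (f : ℕ → ℕ) : val B f ≤ ∑ q ∈ quads, f (mk q) * ex B q := by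
  have h0 : ∑ q ∈ quads, f (mk q) * ex B q =
      ∑ q ∈ quads, (fun m => f m * ex B (ofMask m)) (mk q) := by
    refine sum_congr rfl fun q _ => ?_
    simp only [ofMask_mk]
  rw [h0, sum_split (fun m => f m * ex B (ofMask m))]
  have e1 : ((L 11 4).map fun m =>
      (if ofMask m ∈ link B 12 ∧ ofMask m ∈ link B 11 then 1 else 0) * f m).sum ≤
      ((L 11 4).map fun m => f m * ex B (ofMask m)).sum := by
    refine sum_map_le fun m hm => ?_
    rw [Nat.mul_comm]
    refine Nat.mul_le_mul_left _ ?_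
    by_cases h : ofMask m ∈ link B 12 ∧ ofMask m ∈ link B 11
    · rw [if_pos h]
      have hd : Disjoint ({11, 12} : Finset (Fin 13)) (ofMask m) := by
        rw [disjoint_insert_left, disjoint_singleton_left]
        exact ⟨notMem11 (lt11 hm), notMem12 (by have := lt11 hm; omega)⟩
      have h1 := ex_ge_of_links (B := B) hd
      have h2 : (({11, 12} : Finset (Fin 13)).filter fun x => ofMask m ∈ link B x) = {11, 12} := by
        rw [filter_eq_self]
        intro x hx
        rw [mem_insert, mem_singleton] at hx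
        rcases hx with rfl | rfl
        · exact h.2
        · exact h.1
      rw [h2, card_pair (by decide)] at h1
      exact h1
    · rw [if_neg h]
      exact Nat.zero_le _
  have e2 : ((L 12 3).map fun t => badx B t * f (t + 4096)).sum ≤
      ((L 12 3).map fun t => f (t + 4096) * ex B (ofMask (t + 4096))).sum := by
    refine sum_map_le fun t _ => ?_
    rw [Nat.mul_comm]
    refine Nat.mul_le_mul_left _ ?_
    unfold badx
    split_ifs with h
    · exact h
    · exact Nat.zero_le _
  have e3 : ((L 11 3).map fun t => ex B (ofMask (t + 2048)) * f (t + 2048)).sum =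
      ((L 11 3).map fun t => f (t + 2048) * ex B (ofMask (t + 2048))).sum :=
    sum_map_congr fun t _ => Nat.mul_comm _ _
  unfold val
  omega

theorem val_cof : val B (cof P) = pk 4 12 (fun j => val B (cofj P j)) := by
  have h1 : ∀ (l : List ℕ) (a b : ℕ → ℕ), (l.map fun m => a m * cof P (b m)).sum =
      pk 4 12 (fun j => (l.map fun m => a m * cofj P j (b m)).sum) := by
    intro l a b
    rw [← sum_pk]
    refine sum_map_congr fun m _ => ?_
    rw [cof_eq, mul_pk]
  unfold val
  rw [h1, h1, h1, pk_add, pk_add]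

/-- the value of the lane of the link of 11 -/
theorem lane_value (hX : XVec B 12 Y) (h11 : (11 : Fin 13) ∈ Y) (hP : P = mk (Y.erase 11))
    (hD : link B 12 = fam 12 4 D) (he : enc 11 4 (link B 11) = e % 2 ^ 330) (hok : okC e) :
    xb D P + sumT 1 e (xl1 D P) + sumT 15 e (xl2 P) =
      2 ^ 60 + pk 4 12 (fun j => 7 - cap P j + val B (cofj P j)) := by
  have hP3 := mem_P hX h11 hP
  rw [sum_l1 hP3 hD he, sum_l2 hX h11 he hok]
  unfold xb
  rw [addE, sum_base hX hD]
  have h1 := thr_eq hP3
  have h2 : ((L 11 2).map fun u => exq B u * c2 (spr P) (cz (spr P)) (spr u)).sum +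
      ((L 11 2).map fun u => deg B u * c2 (spr P) (cz (spr P)) (spr u)).sum =
      4 * ((L 11 2).map fun u => c2 (spr P) (cz (spr P)) (spr u)).sum +
      ((L 11 3).map fun t => ex B (ofMask (t + 2048)) * cof P (t + 2048)).sum := by
    rw [← sum_psum hP3, ← mul_sum_map, ← sum_map_add, ← sum_map_add]
    refine sum_map_congr fun u hu => ?_
    rw [← Nat.add_mul, ← Nat.add_mul]
    congr 1
    have h3 := deg_psum hX.odd hu
    have h4 : exq B u = ex B (insert 12 (insert 11 (ofMask u))) := rfl
    omega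
  have h3 : thrs P + val B (cof P) = pk 4 12 (fun j => 7 - cap P j + val B (cofj P j)) := by
    rw [thrs_eq, val_cof, pk_add]
  rw [← h3]
  unfold val
  omega

theorem hi_eq : (0x888888888888 : ℕ) = pk 4 12 (fun _ => 8) := by
  unfold pk
  decide +kernel

theorem land_zero (hX : XVec B 12 Y) (h11 : (11 : Fin 13) ∈ Y) (hP : P = mk (Y.erase 11))
    (hD : link B 12 = fam 12 4 D) (he : enc 11 4 (link B 11) = e % 2 ^ 330) (hok : okC e) :
    (xb D P + sumT 1 e (xl1 D P) + sumT 15 e (xl2 P)) &&& 0x888888888888 = 0 := by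
  rw [lane_value hX h11 hP hD he hok]
  have hw : ∀ j < 12, 7 - cap P j + val B (cofj P j) ≤ 7 := by
    intro j hj
    have h1 := (val_le (B := B) (cofj P j)).trans (sum_cof_le hX h11 hP hj)
    have h2 : cap P j ≤ 2 := by
      unfold cap
      split_ifs <;> norm_num
    omega
  have hlt : pk 4 12 (fun j => 7 - cap P j + val B (cofj P j)) < 2 ^ 48 :=
    pk_lt (W := 4) (N := 12) fun j hj => by
      have := hw j hj
      show 7 - cap P j + val B (cofj P j) < 2 ^ 4
      omega
  have h1 := land_cons (W := 48) (x := 2 ^ 12) (y := 0) hlt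
    (show (0x888888888888 : ℕ) < 2 ^ 48 by norm_num)
  rw [Nat.and_zero, Nat.mul_zero, Nat.zero_add, Nat.zero_add] at h1
  have h2 : (2 : ℕ) ^ 60 = 2 ^ 48 * 2 ^ 12 := by norm_num
  rw [h2, h1, hi_eq, pk_land (fun j hj => by
    have := hw j hj
    show 7 - cap P j + val B (cofj P j) < 2 ^ 4
    omega) (fun _ _ => by norm_num)]
  have h3 : ∀ x : ℕ, x ≤ 7 → x &&& 8 = 0 := by
    intro x hx
    interval_cases x <;> rfl
  have h4 : pk 4 12 (fun j => (7 - cap P j + val B (cofj P j)) &&& 8) = pk 4 12 (fun _ => 0) :=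
    pk_congr fun j hj => h3 _ (hw j hj)
  rw [h4]
  simp [pk]

end main

/-! ## Bounds for all lanes -/

theorem sumG_le {m e : ℕ} {g : ℕ → ℕ → ℕ} {l : List (ℕ × ℕ)} {b : ℕ}
    (h : ∀ a ∈ l, g a.1 a.2 ≤ b) : sumG m e g (mkT l) ≤ l.length * (m * b) := by
  rw [sumG_mkT]
  induction l with
  | nil => exact Nat.zero_le _
  | cons a l ih =>
    rw [List.map_cons, List.sum_cons, List.length_cons, Nat.add_mul, Nat.one_mul]
    have h1 := ih fun b hb => h b (List.mem_cons_of_mem _ hb)
    have h2 : ((e >>> a.1) &&& m) * g a.1 a.2 ≤ m * b :=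
      Nat.mul_le_mul Nat.and_le_right (h a List.mem_cons_self)
    omega

theorem getD_mem {n k i : ℕ} (h : i < (L n k).length) : (L n k).getD i 0 ∈ L n k := by
  rw [List.getD_eq_getElem _ _ h]
  exact List.getElem_mem _

theorem l1_le {P : ℕ} (hP3 : P ∈ L 11 3) (D e : ℕ) :
    sumT 1 e (xl1 D P) ≤ 330 * (1 * 2 ^ 48) := by
  unfold xl1
  rw [sumT_scan, q4_eq]
  have h1 := sumG_le (m := 1) (e := e) (g := g4 D (spr P) (cz (spr P)))
    (l := (List.range 330).map fun k => (k, spr ((L 11 4).getD k 0))) (b := 2 ^ 48) (by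
      intro a ha
      rw [List.mem_map] at ha
      obtain ⟨k, hk, rfl⟩ := ha
      rw [List.mem_range] at hk
      have hm : (L 11 4).getD k 0 ∈ L 11 4 := getD_mem (by rw [length_L]; exact hk)
      show g4 D (spr P) (cz (spr P)) k (spr ((L 11 4).getD k 0)) ≤ 2 ^ 48
      unfold g4
      rw [brN_beq, c4_eq hP3 hm]
      split_ifs
      · exact Nat.zero_le _
      · exact (cof_lt _ _).le)
  rw [List.length_map, List.length_range] at h1
  have h2 : ∀ m, sumT m e TL.nil = 0 := fun _ => rfl
  rw [h2, Nat.add_zero]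
  exact h1

theorem l2_le {P : ℕ} (hP3 : P ∈ L 11 3) (e : ℕ) :
    sumT 15 e (xl2 P) ≤ 55 * (15 * 2 ^ 48) := by
  unfold xl2
  rw [sumT_scan, p2_eq]
  have h1 := sumG_le (m := 15) (e := e) (g := fun _ S => c2 (spr P) (cz (spr P)) S)
    (l := (List.range 55).map fun k => (330 + 4 * k, spr ((L 11 2).getD k 0))) (b := 2 ^ 48) (by
      intro a ha
      rw [List.mem_map] at ha
      obtain ⟨k, hk, rfl⟩ := ha
      rw [List.mem_range] at hk
      exact (c2_lt hP3 (getD_mem (by rw [length_L]; exact hk))).le)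
  rw [List.length_map, List.length_range] at h1
  have h2 : ∀ m, sumT m e TL.nil = 0 := fun _ => rfl
  rw [h2, Nat.add_zero]
  exact h1

theorem base_le {P : ℕ} (hP3 : P ∈ L 11 3) (D : ℕ) :
    base D P (spr P) (cz (spr P)) t3 ≤ 220 * 2 ^ 49 := by
  rw [t3_eq, base_mkT]
  have h1 : ((L 12 3).map fun t => if two ((D <<< 64) &&& (2 ^ 64 * mq t (L 12 4) +
      (4096 + t))) = true then 0 else cofX P (spr P) (cz (spr P)) (4096 + t)).sum ≤
      ((L 12 3).map fun _ => 2 ^ 49).sum := by
    refine sum_map_le fun t ht => ?_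
    split_ifs
    · exact Nat.zero_le _
    · unfold cofX
      rw [addE]
      have h2 := cof_lt P (4096 + t)
      have h3 : brN (Nat.blt (4096 + t) 6144) 0 (c2 (spr P) (cz (spr P))
          (spr (Nat.sub (4096 + t) 6144))) < 2 ^ 48 := by
        rw [brN_eq]
        split_ifs with h4
        · norm_num
        · have h5 : ¬ 4096 + t < 6144 := fun h6 => h4 (Nat.ble_eq_true_of_le h6)
          refine c2_lt hP3 ?_
          have h6 : Nat.sub (4096 + t) 6144 = t - 2048 := by
            rw [subE]
            omega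
          have htl := lt12 ht
          rw [h6, mem_L (by norm_num)]
          refine ⟨by omega, ?_⟩
          have h7 := ofMask_2048' (t := t - 2048) (by omega)
          rw [Nat.sub_add_cancel (by omega)] at h7
          have h8 := card_of_mem (by norm_num) ht
          rw [h7, card_insert_of_notMem (notMem11 (by omega))] at h8
          omega
      have h4 : (2 : ℕ) ^ 49 = 2 ^ 48 + 2 ^ 48 := by norm_num
      omega
  refine h1.trans ?_
  rw [List.map_const', List.sum_replicate, length_L, smul_eq_mul]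
  exact le_of_eq rfl

theorem spr_lt (m : ℕ) : spr m < 16 ^ 11 := by
  have h : ∀ n : ℕ, @Nat.rec (fun _ => ℕ) 0 (fun j ih => Nat.add ih (Nat.mul (Nat.pow 16 j)
      (Nat.land (Nat.shiftRight m j) 1))) n < 16 ^ n := by
    intro n
    induction n with
    | zero => exact Nat.one_pos
    | succ n ih =>
      have h1 : Nat.land (Nat.shiftRight m n) 1 ≤ 1 := Nat.and_le_right
      have h2 : (16 : ℕ) ^ (n + 1) = 16 * 16 ^ n := by ring
      have h3 : Nat.mul (Nat.pow 16 n) (Nat.land (Nat.shiftRight m n) 1) ≤ 16 ^ n * 1 :=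
        Nat.mul_le_mul_left _ h1
      show _ + Nat.mul (Nat.pow 16 n) (Nat.land (Nat.shiftRight m n) 1) < _
      rw [h2]
      omega
  exact h 11

theorem thr_le (P : ℕ) : thr (spr P) ≤ 2 ^ 61 := by
  have h := spr_lt P
  unfold thr
  rw [addE, mulE]
  norm_num at h ⊢
  omega

theorem total_lt {P : ℕ} (hP3 : P ∈ L 11 3) (D e : ℕ) :
    xb D P + sumT 1 e (xl1 D P) + sumT 15 e (xl2 P) < 2 ^ 576 := by
  have h1 := l1_le hP3 D e
  have h2 := l2_le hP3 e
  have h3 := base_le hP3 D
  have h4 := thr_le P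
  have h5 : xb D P = thr (spr P) + base D P (spr P) (cz (spr P)) t3 := rfl
  have h6 : (2 : ℕ) ^ 62 ≤ 2 ^ 576 := Nat.pow_le_pow_right (by norm_num) (by norm_num)
  rw [h5]
  norm_num at h1 h2 h3 h4
  have h7 : (2 : ℕ) ^ 62 = 4611686018427387904 := by norm_num
  omega

/-! ## The theorem -/

theorem fld_land {N X i : ℕ} (hi : i < N) : fld 576 (X &&& (2 ^ (576 * N) - 1)) i = fld 576 X i := by
  unfold fld
  rw [Nat.and_two_pow_sub_one_eq_mod]
  refine Nat.eq_of_testBit_eq fun j => ?_
  rw [Nat.testBit_mod_two_pow, Nat.testBit_mod_two_pow, Nat.testBit_div_two_pow,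
    Nat.testBit_div_two_pow, Nat.testBit_mod_two_pow]
  by_cases hj : j < 576
  · have h1 : 576 * (i + 1) ≤ 576 * N := Nat.mul_le_mul_left _ hi
    have h2 : j + 576 * i < 576 * N := by omega
    rw [decide_eq_true h2, Bool.true_and]
  · rw [decide_eq_false hj, Bool.false_and, Bool.false_and]

/-- **soundness of the packed pair test** -/
theorem xf_sound : XFSound 576 okC xf := by
  intro B Y D P N X i hX h11 hP hD _ hi he hok
  have hP3 := mem_P hX h11 hP
  unfold xf
  by_cases hN : N ≤ 1152
  · rw [Nat.ble_eq_true_of_le hN, brN_true]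
    have hlt : X &&& (2 ^ (576 * N) - 1) < 2 ^ (576 * N) := by
      rw [Nat.and_two_pow_sub_one_eq_mod]
      exact Nat.mod_lt _ (Nat.two_pow_pos _)
    have hpk : Nat.land X (full N) = pk 576 N (fld 576 (X &&& (2 ^ (576 * N) - 1))) := by
      rw [pk_fld hlt, full_eq, landE]
    rw [hpk]
    have hall1 : AllP (fun s => s ≤ 572) (xl1 D P) := by
      unfold xl1
      refine allP_scan _ ?_ trivial
      rw [q4_eq]
      refine allP_mkT fun a ha => ?_
      rw [List.mem_map] at ha
      obtain ⟨k, hk, rfl⟩ := ha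
      rw [List.mem_range] at hk
      show k ≤ 572
      omega
    have hall2 : AllP (fun s => s ≤ 572) (xl2 P) := by
      unfold xl2
      refine allP_scan _ ?_ trivial
      rw [p2_eq]
      refine allP_mkT fun a ha => ?_
      rw [List.mem_map] at ha
      obtain ⟨k, hk, rfl⟩ := ha
      rw [List.mem_range] at hk
      show 330 + 4 * k ≤ 572
      omega
    refine alive_bit hN (fun _ _ => fld_lt) hall1 hall2 (fun j _ => total_lt hP3 D _) hi ?_
    have he' : enc 11 4 (link B 11) = fld 576 (X &&& (2 ^ (576 * N) - 1)) i % 2 ^ 330 := by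
      rw [fld_land hi]
      exact he
    exact land_zero hX h11 hP hD he' (by rw [fld_land hi]; exact hok)
  · have h1 : Nat.ble N 1152 = false := by
      rw [← Bool.not_eq_true]
      exact fun h => hN (Nat.le_of_ble_eq_true h)
    rw [h1, brN_false, rep_eq (by norm_num), testBit_pk (fun _ _ => by norm_num) hi]
    rfl

end Pool.Agent.Helper34.TY
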