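import Pool.Agent.Helper34.TY.XDef

/-!
MP_8ee768_co, project TH-Y', stage X: the packed pair test, second version (definitions).

The entries `(s, c)` of a list are put into groups with pairwise distance at least 64. A group is a
mask `m` (the positions) and a number `C` (the sum of `c * 2 ^ (576 - s)`): one multiplication of
the masked lanes by `C` gives the sum of all terms of the group at position 576, the other products
are at distance at least 64 from all multiples of 576.
-/

set_option autoImplicit false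
set_option maxRecDepth 20000

namespace Pool.Agent.Helper34.TY

open Pool.Agent.Helper63.SIMD

noncomputable section

/-- branch -/
def brT (b : Bool) (x y : TL) : TL := @Bool.rec (fun _ => TL) y x b

/-- the entries of the quads of `D` with a nonzero coefficient -/
def scanD (D SP C0 : ℕ) (l : TL) : TL → TL :=
  @TL.rec (fun _ => TL → TL) (fun acc => acc)
    (fun s S _ ih acc => brT (Nat.beq (Nat.land (Nat.shiftRight D s) 1) 0) (ih acc)
      (brT (Nat.beq (c4 SP C0 S) 0) (ih acc) (ih (TL.cons s (c4 SP C0 S) acc)))) l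

/-- the position `s` has distance at least 64 from the bits of `m` -/
def okG (m s : ℕ) : Bool :=
  Nat.beq (Nat.land (Nat.shiftRight (Nat.shiftLeft m 64) (Nat.succ s))
    0x7fffffffffffffffffffffffffffffff) 0

/-- mask of the positions -/
def mO (w : ℕ) (l : TL) : ℕ :=
  @TL.rec (fun _ => ℕ) 0 (fun s _ _ ih => Nat.lor (Nat.shiftLeft w s) ih) l

/-- constant of a group -/
def CO (l : TL) : ℕ :=
  @TL.rec (fun _ => ℕ) 0 (fun s c _ ih => Nat.add (Nat.shiftLeft c (Nat.sub 576 s)) ih) l

/-- every entry is a group -/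
def singles (w : ℕ) (l : TL) : TL :=
  @TL.rec (fun _ => TL) TL.nil
    (fun s c _ ih => TL.cons (Nat.shiftLeft w s) (Nat.shiftLeft c (Nat.sub 576 s)) ih) l

/-- one group (greedy), the other entries go to `rest` -/
def takeG (w : ℕ) (k : ℕ → ℕ → TL → TL) (l : TL) : ℕ → ℕ → TL → TL :=
  @TL.rec (fun _ => ℕ → ℕ → TL → TL) (fun m C rest => k m C rest)
    (fun s c _ ih m C rest => brT (okG m s)
      (ih (Nat.lor (Nat.shiftLeft w s) m) (Nat.add (Nat.shiftLeft c (Nat.sub 576 s)) C) rest)
      (ih m C (TL.cons s c rest))) l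

/-- all groups; the first argument is the fuel -/
def grpG (w n : ℕ) : TL → TL :=
  @Nat.rec (fun _ => TL → TL) (fun l => singles w l)
    (fun _ ih l => @TL.rec (fun _ => TL) TL.nil
      (fun _ _ _ _ => takeG w (fun m C rest => TL.cons m C (ih rest)) l 0 0 TL.nil) l) n

/-- sum of the groups -/
def tg (X : ℕ) (l : TL) : ℕ → ℕ :=
  @TL.rec (fun _ => ℕ → ℕ) (fun a => a)
    (fun m C _ ih a => ih (Nat.add a (Nat.mul (Nat.land X (Nat.mul m R1)) C))) l

/-- groups of the quads -/
def xg1 (D P : ℕ) : TL := grpG 1 40 (scanD D (spr P) (cz (spr P)) q4 TL.nil)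

/-- positions (without 330) and spreads of the pairs, class `k` mod 16 by class -/
def pc0 : TL := .cons 0 17 <| .cons 64 16777232 <| .cons 128 4295032832 <| .cons 192 1099511631872 <| .nil
def pc1 : TL := .cons 4 257 <| .cons 68 16777472 <| .cons 132 4296015872 <| .cons 196 1099511693312 <| .nil
def pc2 : TL := .cons 8 272 <| .cons 72 16781312 <| .cons 136 4311744512 <| .cons 200 1099512676352 <| .nil
def pc3 : TL := .cons 12 4097 <| .cons 76 16842752 <| .cons 140 4563402752 <| .cons 204 1099528404992 <| .nil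
def pc4 : TL := .cons 16 4112 <| .cons 80 17825792 <| .cons 144 68719476737 <| .cons 208 1099780063232 <| .nil
def pc5 : TL := .cons 20 4352 <| .cons 84 268435457 <| .cons 148 68719476752 <| .cons 212 1103806595072 <| .nil
def pc6 : TL := .cons 24 65537 <| .cons 88 268435472 <| .cons 152 68719476992 <| .cons 216 1168231104512 <| .nil
def pc7 : TL := .cons 28 65552 <| .cons 92 268435712 <| .cons 156 68719480832 <| .nil
def pc8 : TL := .cons 32 65792 <| .cons 96 268439552 <| .cons 160 68719542272 <| .nil
def pc9 : TL := .cons 36 69632 <| .cons 100 268500992 <| .cons 164 68720525312 <| .nil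
def pc10 : TL := .cons 40 1048577 <| .cons 104 269484032 <| .cons 168 68736253952 <| .nil
def pc11 : TL := .cons 44 1048592 <| .cons 108 285212672 <| .cons 172 68987912192 <| .nil
def pc12 : TL := .cons 48 1048832 <| .cons 112 4294967297 <| .cons 176 73014444032 <| .nil
def pc13 : TL := .cons 52 1052672 <| .cons 116 4294967312 <| .cons 180 1099511627777 <| .nil
def pc14 : TL := .cons 56 1114112 <| .cons 120 4294967552 <| .cons 184 1099511627792 <| .nil
def pc15 : TL := .cons 60 16777217 <| .cons 124 4294971392 <| .cons 188 1099511628032 <| .nil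

/-- the 16 classes -/
def pcs16 : List TL :=
  [pc0, pc1, pc2, pc3, pc4, pc5, pc6, pc7, pc8, pc9, pc10, pc11, pc12, pc13, pc14, pc15]

/-- one static group -/
def oneG (SP C0 : ℕ) (next l : TL) : TL :=
  (fun M => TL.cons (mO 15 M) (CO M) next) (scan (fun _ S => c2 SP C0 S) l TL.nil)

/-- groups of the pairs -/
def xg2 (P : ℕ) : TL :=
  @List.rec TL (fun _ => TL) TL.nil (fun l _ ih => oneG (spr P) (cz (spr P)) ih l) pcs16

/-- the accumulator -/
def acc2 (g1 g2 : TL) (B0 O X : ℕ) : ℕ :=
  Nat.add (Nat.shiftRight (tg X g1 (tg (Nat.shiftRight X 330) g2 0)) 576) (Nat.mul B0 O)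

/-- the alive bits -/
def alive2 (g1 g2 : TL) (B0 X O : ℕ) : ℕ :=
  Nat.xor O (Nat.land (Nat.shiftRight (Nat.add (Nat.land (acc2 g1 g2 B0 O X)
    (Nat.mul 0x888888888888 O)) (Nat.mul 0xfffffffffffff O)) 52) O)

/-- THE PAIR TEST, second version -/
def xf2 (D P N X : ℕ) : ℕ :=
  brN (Nat.ble N 1152)
    (alive2 (xg1 D P) (xg2 P) (xb D P) (Nat.land X (full N)) (one N)) (rep 576 N)

end

end Pool.Agent.Helper34.TY
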