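import Pool.Agent.Helper34.TY.X2Grp
import Pool.Agent.Helper34.TY.XFS

/-!
MP_8ee768_co, project TH-Y', stage X: soundness of the packed pair test, second version.
-/

set_option autoImplicit false
set_option maxRecDepth 20000
set_option exponentiation.threshold 1000

namespace Pool.Agent.Helper34.TY

open Finset
open Pool.Agent.Helper63.SIMD Pool.Agent.Helper97.CV.KillW Pool.Agent.Helper97.CV.Cube
open Pool.Agent.Helper89.CV (OddCover ofMask)
open Pool.Agent.Helper97.CV Pool.Agent.Helper4.CV Pool.Agent.Helper79.CV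
open Pool.Agent.Helper74.TY Pool.Agent.Helper62.TY

/-! ## The quads -/

theorem brT_eq (b : Bool) (x y : TL) : brT b x y = if b = true then x else y := by
  cases b <;> rfl

theorem scanD_cons (D SP C0 s S : ℕ) (t acc : TL) : scanD D SP C0 (.cons s S t) acc =
    brT (Nat.beq ((D >>> s) &&& 1) 0) (scanD D SP C0 t acc)
      (brT (Nat.beq (c4 SP C0 S) 0) (scanD D SP C0 t acc)
        (scanD D SP C0 t (.cons s (c4 SP C0 S) acc))) := rfl

theorem scanD_eq (D SP C0 : ℕ) (l acc : TL) :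
    scanD D SP C0 l acc = scan (g4 D SP C0) l acc := by
  induction l generalizing acc with
  | nil => rfl
  | cons s S t ih =>
    have hg : g4 D SP C0 s S = if (D >>> s) &&& 1 = 0 then 0 else c4 SP C0 S :=
      brN_beq _ _ _ _
    rw [scanD_cons, scan_cons, ih, ih, brT_eq, brT_eq, hg]
    simp only [beq_iff]
    by_cases h1 : (D >>> s) &&& 1 = 0
    · simp only [h1, if_true]
    · simp only [h1, if_false]

theorem eb_xl1 {P : ℕ} (hP3 : P ∈ L 11 3) (D : ℕ) : AllE EB (xl1 D P) := by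
  unfold xl1
  refine allE_scan ?_ trivial
  rw [q4_eq]
  refine allE_mkT fun a ha => ?_
  rw [List.mem_map] at ha
  obtain ⟨k, hk, rfl⟩ := ha
  rw [List.mem_range] at hk
  have hm : (L 11 4).getD k 0 ∈ L 11 4 := getD_mem (by rw [length_L]; exact hk)
  refine ⟨show k ≤ 330 by omega, ?_⟩
  show g4 D (spr P) (cz (spr P)) k (spr ((L 11 4).getD k 0)) < 2 ^ 48
  unfold g4
  rw [brN_beq, c4_eq hP3 hm]
  split_ifs
  · norm_num
  · exact cof_lt _ _

theorem len_xl1 (D P : ℕ) : lenT (xl1 D P) ≤ 330 := by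
  unfold xl1
  have h := lenT_scan (g4 D (spr P) (cz (spr P))) q4 TL.nil
  have h1 : lenT q4 = 330 := by rw [q4_eq, lenT_mkT, List.length_map, List.length_range]
  have h2 : lenT TL.nil = 0 := rfl
  omega

theorem xg1_GS {P : ℕ} (hP3 : P ∈ L 11 3) (D : ℕ) : GS 1 (xl1 D P) (xg1 D P) := by
  have h : xg1 D P = grpG 1 40 (xl1 D P) := by
    unfold xg1 xl1
    rw [scanD_eq]
  rw [h]
  exact grpG_GS (by norm_num) rfl 40 (eb_xl1 hP3 D)

/-! ## The pairs -/

/-- the class `r` -/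
def cls (r : ℕ) : List ℕ := (List.range 55).filter fun k => k % 16 = r

/-- the entries of a class -/
noncomputable def mkC (l : List ℕ) : TL := mkT (l.map fun k => (4 * k, spr ((L 11 2).getD k 0)))

theorem pcs16_eq : pcs16 = (List.range 16).map fun r => mkC (cls r) := by
  decide +kernel

theorem sep_pcs : ∀ l ∈ pcs16, Sep l := by
  simp [pcs16, pc0, pc1, pc2, pc3, pc4, pc5, pc6, pc7, pc8, pc9, pc10, pc11, pc12, pc13, pc14,
    pc15, Sep, Far, AllE]

theorem len_pcs : (pcs16.map lenT).sum = 55 := by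
  decide +kernel

theorem allE_of {p : ℕ → ℕ → Prop} (h : ∀ s c, p s c) (l : TL) : AllE p l := by
  induction l with
  | nil => trivial
  | cons s c t ih => exact ⟨h s c, ih⟩

theorem mO_lt2 {w : ℕ} (hw : w < 16) {n : ℕ} {M : TL} (h : AllE (fun s _ => s + 4 ≤ n) M) :
    mO w M < 2 ^ n := by
  induction M with
  | nil => exact Nat.two_pow_pos _
  | cons s c t ih =>
    rw [mO_cons]
    refine Nat.or_lt_two_pow ?_ (ih h.2)
    have h1 := h.1
    rw [Nat.shiftLeft_eq]
    calc w * 2 ^ s < 2 ^ 4 * 2 ^ s := Nat.mul_lt_mul_of_pos_right (by norm_num; exact hw)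
          (Nat.two_pow_pos s)
      _ = 2 ^ (4 + s) := (pow_add _ _ _).symm
      _ ≤ 2 ^ n := Nat.pow_le_pow_right (by norm_num) (by omega)

/-- concatenation -/
def appT : TL → TL → TL
  | .nil, b => b
  | .cons s c t, b => .cons s c (appT t b)

theorem sumT_appT (w e : ℕ) (a b : TL) : sumT w e a + sumT w e b = sumT w e (appT a b) := by
  induction a with
  | nil => exact Nat.zero_add _
  | cons s c t ih =>
    show ((e >>> s) &&& w) * c + sumT w e t + sumT w e b =
      ((e >>> s) &&& w) * c + sumT w e (appT t b)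
    rw [← ih, Nat.add_assoc]

theorem lenT_appT (a b : TL) : lenT a + lenT b = lenT (appT a b) := by
  induction a with
  | nil => exact Nat.zero_add _
  | cons s c t ih =>
    show lenT t + 1 + lenT b = lenT (appT t b) + 1
    rw [← ih]
    omega

/-- the groups of a list of classes -/
noncomputable def xgL (P : ℕ) (ls : List TL) : TL :=
  @List.rec TL (fun _ => TL) TL.nil (fun l _ ih => oneG (spr P) (cz (spr P)) ih l) ls

/-- coefficients of the pairs -/
noncomputable def gp (P : ℕ) : ℕ → ℕ → ℕ := fun _ S => c2 (spr P) (cz (spr P)) S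

theorem xgL_cons (P : ℕ) (l : TL) (ls : List TL) : xgL P (l :: ls) =
    .cons (mO 15 (scan (gp P) l .nil)) (CO (scan (gp P) l .nil)) (xgL P ls) := rfl

theorem xgL_GS (P : ℕ) (ls : List TL)
    (h : ∀ l ∈ ls, Sep l ∧ AllE (fun s S => s ≤ 216 ∧ gp P s S < 2 ^ 48) l) :
    ∃ l', GS 15 l' (xgL P ls) ∧ (∀ e, sumT 15 e l' = (ls.map (sumG 15 e (gp P))).sum) ∧
      lenT l' ≤ (ls.map lenT).sum ∧ AllP (fun m => m < 2 ^ 246) (xgL P ls) := by
  induction ls with
  | nil => exact ⟨.nil, GS.nil 15, fun _ => rfl, le_rfl, trivial⟩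
  | cons l ls ih =>
    obtain ⟨l', h1, h2, h3, h4⟩ := ih fun a ha => h a (List.mem_cons_of_mem _ ha)
    have hl := h l List.mem_cons_self
    set M := scan (gp P) l .nil with hM
    have hE : AllE (fun s c => s ≤ 216 ∧ c < 2 ^ 48) M := allE_scan hl.2 trivial
    have hEB : AllE EB M := AllE.imp (fun s c h5 => ⟨by omega, h5.2⟩) hE
    have hS : Sep M := sep_scan hl.1 trivial (allE_of (fun s c => trivial) l)
    rw [xgL_cons]
    refine ⟨appT M l', GS.cons (by norm_num) hEB hS h1 (fun e => sumT_appT 15 e M l')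
      (lenT_appT M l'), fun e => ?_, ?_, ?_, h4⟩
    · rw [← sumT_appT, h2 e, List.map_cons, List.sum_cons, hM, sumT_scan]
      show sumG 15 e (gp P) l + 0 + _ = _
      omega
    · rw [← lenT_appT, List.map_cons, List.sum_cons]
      have h5 : lenT M ≤ lenT l + 0 := lenT_scan (gp P) l .nil
      omega
    · exact mO_lt2 (by norm_num) (AllE.imp (fun s c h5 => by omega) hE)

theorem sum_cls (F : ℕ → ℕ) (ls : List ℕ) :
    (ls.map fun r => ((cls r).map F).sum).sum = ((ls.flatMap cls).map F).sum := by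
  induction ls with
  | nil => rfl
  | cons r ls ih =>
    rw [List.map_cons, List.sum_cons, ih, List.flatMap_cons, List.map_append, List.sum_append]

theorem cls_perm : ((List.range 16).flatMap cls).Perm (List.range 55) := by
  decide +kernel

theorem sum_pairs (P e : ℕ) :
    (pcs16.map (sumG 15 (e >>> 330) (gp P))).sum = sumT 15 e (xl2 P) := by
  unfold xl2
  rw [sumT_scan, sumG_p2, ← sum_map_range, pcs16_eq, List.map_map]
  have h0 : sumT 15 e TL.nil = 0 := rfl
  rw [h0, Nat.add_zero, ← (cls_perm.map _).sum_eq, ← sum_cls]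
  congr 1

theorem pcs_bd {P : ℕ} (hP3 : P ∈ L 11 3) :
    ∀ l ∈ pcs16, Sep l ∧ AllE (fun s S => s ≤ 216 ∧ gp P s S < 2 ^ 48) l := by
  intro l hl
  refine ⟨sep_pcs l hl, ?_⟩
  rw [pcs16_eq, List.mem_map] at hl
  obtain ⟨r, -, rfl⟩ := hl
  refine allE_mkT fun a ha => ?_
  rw [List.mem_map] at ha
  obtain ⟨k, hk, rfl⟩ := ha
  unfold cls at hk
  rw [List.mem_filter, List.mem_range] at hk
  refine ⟨?_, c2_lt hP3 (getD_mem (by rw [length_L]; exact hk.1))⟩
  show 4 * k ≤ 216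
  have := hk.1
  omega

theorem xg2_GS {P : ℕ} (hP3 : P ∈ L 11 3) : AllP (fun m => m < 2 ^ 246) (xg2 P) ∧
    ∀ e, ∃ y z, sumR (e >>> 330) (xg2 P) =
      2 ^ 576 * sumT 15 e (xl2 P) + 2 ^ 640 * y + 2 ^ 64 * z ∧
      y ≤ 55 * 2 ^ 384 ∧ z ≤ 55 * 2 ^ 500 := by
  obtain ⟨l', h1, h2, h3, h4⟩ := xgL_GS P pcs16 (pcs_bd hP3)
  rw [len_pcs] at h3
  refine ⟨h4, fun e => ?_⟩
  obtain ⟨y, z, h5, h6, h7⟩ := h1.2 (e >>> 330)
  rw [h2, sum_pairs] at h5
  exact ⟨y, z, h5, h6.trans (Nat.mul_le_mul_right _ h3), h7.trans (Nat.mul_le_mul_right _ h3)⟩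

/-! ## The lanes -/

theorem hi_land {a b : ℕ} (ha : a < 2 ^ 64) :
    (a + 2 ^ 64 * b) &&& 0x888888888888 = a &&& 0x888888888888 := by
  have h1 := land_cons (W := 64) (x := b) (y := 0) ha
    (show (0x888888888888 : ℕ) < 2 ^ 64 by norm_num)
  rw [Nat.and_zero, Nat.mul_zero, Nat.zero_add, Nat.zero_add] at h1
  rw [Nat.add_comm]
  exact h1

theorem bit2 {N : ℕ} (hN : N ≤ 1152) {t : ℕ → ℕ} (ht : ∀ i < N, t i < 2 ^ 576) {i : ℕ}
    (hi : i < N) (hz : t i &&& 0x888888888888 = 0) :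
    ((one N) ^^^ ((((pk 576 N t) &&& (0x888888888888 * one N)) +
      0xfffffffffffff * one N) >>> 52 &&& one N)).testBit (576 * i) = true := by
  have hsmall : ∀ x : ℕ, x &&& 0x888888888888 < 2 ^ 48 := fun x =>
    lt_of_le_of_lt Nat.and_le_right (by norm_num)
  rw [one_eq hN, mul_pk, mul_pk, pk_land ht (fun _ _ => by norm_num), pk_add]
  have h3 : ∀ j < N, (t j &&& 0x888888888888 * 1) + 0xfffffffffffff * 1 < 2 ^ 576 := by
    intro j _
    have := hsmall (t j)
    have h4 : (2 : ℕ) ^ 53 ≤ 2 ^ 576 := Nat.pow_le_pow_right (by norm_num) (by norm_num)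
    rw [mul_one, mul_one]
    have h5 : (2 : ℕ) ^ 48 + 0xfffffffffffff < 2 ^ 53 := by norm_num
    omega
  rw [lane_shr_land (by norm_num) h3 (fun _ _ => by norm_num),
    pk_xor (fun _ _ => by norm_num) (fun j _ => lt_of_le_of_lt Nat.and_le_right (by norm_num)),
    testBit_pk (fun j _ => ?_) hi]
  · show (1 ^^^ (((t i &&& 0x888888888888 * 1) + 0xfffffffffffff * 1) >>> 52 &&& 1)).testBit 0
      = true
    rw [mul_one, hz]
    rfl
  · refine lt_of_lt_of_le (Nat.xor_lt_two_pow (n := 1) (by norm_num) ?_)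
      (Nat.pow_le_pow_right (by norm_num) (by norm_num))
    exact lt_of_le_of_lt Nat.and_le_right (by norm_num)

theorem acc2_pk {N : ℕ} (hN : N ≤ 1152) {e : ℕ → ℕ} (he : ∀ i < N, e i < 2 ^ 576) {P : ℕ}
    (hP3 : P ∈ L 11 3) (D B0 : ℕ) : ∃ b : ℕ → ℕ, (∀ i, b i ≤ 385 * 2 ^ 384 + 385 * 2 ^ 500) ∧
      acc2 (xg1 D P) (xg2 P) B0 (one N) (pk 576 N e) =
        pk 576 N (fun i => B0 + sumT 1 (e i) (xl1 D P) + sumT 15 (e i) (xl2 P) +
          2 ^ 64 * b i) := by
  obtain ⟨m1, k1⟩ := xg1_GS hP3 D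
  obtain ⟨m2, k2⟩ := xg2_GS hP3
  have hlen := len_xl1 D P
  choose y1 z1 a1 a2 a3 using k1
  choose y2 z2 b1 b2 b3 using k2
  have hall : ∀ (k : ℕ) (l : TL), k ≤ 576 → AllP (fun m => m < 2 ^ k) l →
      AllP (fun m => m < 2 ^ 576) l := by
    intro k l hk
    induction l with
    | nil => exact fun _ => trivial
    | cons s c t ih =>
      exact fun h => ⟨lt_of_lt_of_le h.1 (Nat.pow_le_pow_right (by norm_num) hk), ih h.2⟩
  have hz : (0 : ℕ) = pk 576 N (fun _ => 0) := by simp [pk]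
  refine ⟨fun i => y1 (e i) + y2 (e i) + if i + 1 < N then z1 (e (i + 1)) + z2 (e (i + 1))
    else 0, fun i => ?_, ?_⟩
  · have c1 := (a2 (e i)).trans (Nat.mul_le_mul_right (2 ^ 384) hlen)
    have c2 := b2 (e i)
    have c3 := (a3 (e (i + 1))).trans (Nat.mul_le_mul_right (2 ^ 500) hlen)
    have c4 := b3 (e (i + 1))
    show y1 (e i) + y2 (e i) + (if i + 1 < N then z1 (e (i + 1)) + z2 (e (i + 1)) else 0) ≤ _
    split_ifs <;> omega
  · show (tg (pk 576 N e) (xg1 D P) (tg (pk 576 N e >>> 330) (xg2 P) 0)) >>> 576 + B0 * one N = _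
    have hX : pk 576 N e = pk 576 N e >>> 0 := rfl
    conv_lhs => rw [hz]
    rw [tg_pk hN (by norm_num) he m2]
    conv_lhs => rw [hX]
    rw [tg_pk (k := 0) hN (by norm_num) he (hall 336 _ (by norm_num) m1),
      shr_pk (u := fun i => sumT 1 (e i) (xl1 D P) + sumT 15 (e i) (xl2 P) +
        2 ^ 64 * (y1 (e i) + y2 (e i))) (z := fun i => 2 ^ 64 * (z1 (e i) + z2 (e i))),
      one_eq hN, mul_pk, pk_add]
    · refine pk_congr fun i _ => ?_
      show sumT 1 (e i) (xl1 D P) + sumT 15 (e i) (xl2 P) + 2 ^ 64 * (y1 (e i) + y2 (e i)) +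
        (if i + 1 < N then 2 ^ 64 * (z1 (e (i + 1)) + z2 (e (i + 1))) else 0) + B0 * 1 =
        B0 + sumT 1 (e i) (xl1 D P) + sumT 15 (e i) (xl2 P) + 2 ^ 64 * (y1 (e i) + y2 (e i) +
          if i + 1 < N then z1 (e (i + 1)) + z2 (e (i + 1)) else 0)
      split_ifs <;> ring
    · intro i _
      show 0 + sumR (e i >>> 330) (xg2 P) + sumR (e i >>> 0) (xg1 D P) = _
      rw [show e i >>> 0 = e i from rfl, a1, b1]
      ring
    · intro i _
      show 2 ^ 64 * (z1 (e i) + z2 (e i)) < 2 ^ 576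
      have c3 := (a3 (e i)).trans (Nat.mul_le_mul_right (2 ^ 500) hlen)
      have c4 := b3 (e i)
      have c5 : z1 (e i) + z2 (e i) < 2 ^ 512 := by
        have c6 : (2 : ℕ) ^ 512 = 4096 * 2 ^ 500 := by rw [show (4096 : ℕ) = 2 ^ 12 by norm_num, ← pow_add]
        have c7 : 0 < (2 : ℕ) ^ 500 := Nat.two_pow_pos _
        omega
      calc 2 ^ 64 * (z1 (e i) + z2 (e i)) < 2 ^ 64 * 2 ^ 512 :=
            Nat.mul_lt_mul_of_pos_left c5 (Nat.two_pow_pos _)
        _ = 2 ^ 576 := (pow_add _ _ _).symm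

/-! ## The theorem -/

theorem total62 {P : ℕ} (hP3 : P ∈ L 11 3) (D e : ℕ) :
    xb D P + sumT 1 e (xl1 D P) + sumT 15 e (xl2 P) < 2 ^ 62 := by
  have h1 := l1_le hP3 D e
  have h2 := l2_le hP3 e
  have h3 := base_le hP3 D
  have h4 := thr_le P
  have h5 : xb D P = thr (spr P) + base D P (spr P) (cz (spr P)) t3 := rfl
  rw [h5]
  norm_num at h1 h2 h3 h4
  have h7 : (2 : ℕ) ^ 62 = 4611686018427387904 := by norm_num
  omega

/-- **soundness of the packed pair test, second version** -/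
theorem xf2_sound : XFSound 576 okC xf2 := by
  intro B Y D P N X i hX h11 hP hD _ hi he hok
  have hP3 := mem_P hX h11 hP
  unfold xf2
  by_cases hN : N ≤ 1152
  · rw [Nat.ble_eq_true_of_le hN, brN_true]
    have hlt : X &&& (2 ^ (576 * N) - 1) < 2 ^ (576 * N) := by
      rw [Nat.and_two_pow_sub_one_eq_mod]
      exact Nat.mod_lt _ (Nat.two_pow_pos _)
    have hpk : Nat.land X (full N) = pk 576 N (fld 576 (X &&& (2 ^ (576 * N) - 1))) := by
      rw [pk_fld hlt, full_eq, landE]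
    rw [hpk]
    set f := fld 576 (X &&& (2 ^ (576 * N) - 1)) with hf
    obtain ⟨b, hb, hacc⟩ := acc2_pk hN (e := f) (fun _ _ => fld_lt) hP3 D (xb D P)
    have he' : enc 11 4 (link B 11) = f i % 2 ^ 330 := by
      rw [hf, fld_land hi]
      exact he
    have hz := land_zero hX h11 hP hD he' (by rw [hf, fld_land hi]; exact hok)
    have h62 : (2 : ℕ) ^ 62 ≤ 2 ^ 64 := by norm_num
    have e1 : alive2 (xg1 D P) (xg2 P) (xb D P) (pk 576 N f) (one N) = (one N) ^^^
        ((((acc2 (xg1 D P) (xg2 P) (xb D P) (one N) (pk 576 N f)) &&&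
          (0x888888888888 * one N)) + 0xfffffffffffff * one N) >>> 52 &&& one N) := rfl
    rw [e1, hacc]
    refine bit2 hN (fun j _ => ?_) hi ?_
    · have h1 := total62 hP3 D (f j)
      have h2 := hb j
      have h3 : b j < 2 ^ 511 := by
        have c6 : (2 : ℕ) ^ 511 = 2048 * 2 ^ 500 := by
          rw [show (2048 : ℕ) = 2 ^ 11 by norm_num, ← pow_add]
        have c7 : (2 : ℕ) ^ 384 ≤ 2 ^ 500 := Nat.pow_le_pow_right (by norm_num) (by norm_num)
        have c8 : 0 < (2 : ℕ) ^ 384 := Nat.two_pow_pos _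
        omega
      have h4 : 2 ^ 64 * (b j + 1) ≤ 2 ^ 64 * 2 ^ 511 := Nat.mul_le_mul_left _ h3
      rw [← pow_add] at h4
      have h5 : (2 : ℕ) ^ (64 + 511) ≤ 2 ^ 576 := Nat.pow_le_pow_right (by norm_num) (by norm_num)
      show xb D P + sumT 1 (f j) (xl1 D P) + sumT 15 (f j) (xl2 P) + 2 ^ 64 * b j < 2 ^ 576
      omega
    · show (xb D P + sumT 1 (f i) (xl1 D P) + sumT 15 (f i) (xl2 P) + 2 ^ 64 * b i) &&&
        0x888888888888 = 0
      rw [hi_land (lt_of_lt_of_le (total62 hP3 D (f i)) h62)]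
      exact hz
  · have h1 : Nat.ble N 1152 = false := by
      rw [← Bool.not_eq_true]
      exact fun h => hN (Nat.le_of_ble_eq_true h)
    rw [h1, brN_false, rep_eq (by norm_num), testBit_pk (fun _ _ => by norm_num) hi]
    rfl

end Pool.Agent.Helper34.TY
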