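import Pool.Agent.Helper34.TY.XSem
import Pool.Agent.Helper74.TY.XExt

/-!
MP_8ee768_co, project TH-Y', stage X: sums over the lists of the packed test.
-/

set_option autoImplicit false
set_option maxRecDepth 20000

namespace Pool.Agent.Helper34.TY

open Finset
open Pool.Agent.Helper63.SIMD
open Pool.Agent.Helper89.CV (OddCover ofMask)
open Pool.Agent.Helper97.CV Pool.Agent.Helper4.CV Pool.Agent.Helper79.CV
open Pool.Agent.Helper74.TY Pool.Agent.Helper62.TY

/-! ## Lists -/

theorem sum_map_getD (l : List ℕ) (f : ℕ → ℕ) :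
    (l.map f).sum = ∑ i ∈ range l.length, f (l.getD i 0) := by
  induction l with
  | nil => rfl
  | cons a l ih =>
    rw [List.map_cons, List.sum_cons, ih, List.length_cons, sum_range_succ', add_comm]
    rfl

theorem sum_map_range (n : ℕ) (f : ℕ → ℕ) : ((List.range n).map f).sum = ∑ i ∈ range n, f i := by
  induction n with
  | zero => rfl
  | succ n ih =>
    rw [List.range_succ, List.map_append, List.sum_append, ih, sum_range_succ]
    simp

theorem sum_quads (f : ℕ → ℕ) : ∑ q ∈ quads, f (mk q) = ((L 13 4).map f).sum := by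
  rw [← List.sum_toFinset f (nodup_L 13 4)]
  refine sum_nbij' mk ofMask ?_ ?_ ?_ ?_ fun _ _ => rfl
  · intro q hq
    rw [List.mem_toFinset, mem_L le_rfl, ofMask_mk]
    exact ⟨mk_lt q, mem_quads.1 hq⟩
  · intro m hm
    rw [List.mem_toFinset, mem_L le_rfl] at hm
    exact mem_quads.2 hm.2
  · intro q _
    exact ofMask_mk q
  · intro m hm
    rw [List.mem_toFinset, mem_L le_rfl] at hm
    exact mk_ofMask hm.1

theorem sum_split (f : ℕ → ℕ) : ∑ q ∈ quads, f (mk q) =
    ((L 11 4).map f).sum + ((L 11 3).map fun t => f (t + 2048)).sum +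
      ((L 12 3).map fun t => f (t + 4096)).sum := by
  rw [sum_quads]
  have h1 : L 13 4 = (L 11 4 ++ (L 11 3).map (fun m => m + 2 ^ 11)) ++
    (L 12 3).map (fun m => m + 2 ^ 12) := rfl
  rw [h1, List.map_append, List.map_append, List.sum_append, List.sum_append, List.map_map,
    List.map_map]
  rfl

theorem sum_split3 (f : ℕ → ℕ) : ((L 12 3).map f).sum =
    ((L 11 3).map f).sum + ((L 11 2).map fun t => f (t + 2048)).sum := by
  have h1 : L 12 3 = L 11 3 ++ (L 11 2).map (fun m => m + 2 ^ 11) := rfl
  rw [h1, List.map_append, List.sum_append, List.map_map]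
  rfl

theorem sum_map_le {l : List ℕ} {f g : ℕ → ℕ} (h : ∀ m ∈ l, f m ≤ g m) :
    (l.map f).sum ≤ (l.map g).sum := by
  induction l with
  | nil => exact le_rfl
  | cons a l ih =>
    rw [List.map_cons, List.map_cons, List.sum_cons, List.sum_cons]
    exact Nat.add_le_add (h a List.mem_cons_self)
      (ih fun m hm => h m (List.mem_cons_of_mem _ hm))

theorem sum_map_congr {l : List ℕ} {f g : ℕ → ℕ} (h : ∀ m ∈ l, f m = g m) :
    (l.map f).sum = (l.map g).sum := by
  rw [List.map_congr_left h]

theorem sum_map_add (l : List ℕ) (f g : ℕ → ℕ) :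
    (l.map fun m => f m + g m).sum = (l.map f).sum + (l.map g).sum := by
  induction l with
  | nil => rfl
  | cons a l ih =>
    rw [List.map_cons, List.map_cons, List.map_cons, List.sum_cons, List.sum_cons, List.sum_cons,
      ih]
    omega

theorem mul_sum_map (l : List ℕ) (c : ℕ) (f : ℕ → ℕ) :
    (l.map fun m => c * f m).sum = c * (l.map f).sum := by
  induction l with
  | nil => rfl
  | cons a l ih =>
    rw [List.map_cons, List.map_cons, List.sum_cons, List.sum_cons, ih, mul_add]

/-! ## The literal lists -/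

deriving instance DecidableEq for TL

/-- the code of the quads through a triple -/
def mq (t : ℕ) : List ℕ → ℕ
  | [] => 0
  | m :: l => 2 * mq t l + if m &&& t = t then 1 else 0

theorem testBit_mq (t : ℕ) (l : List ℕ) (i : ℕ) :
    (mq t l).testBit i = true ↔ ∃ h : i < l.length, l[i] &&& t = t := by
  induction l generalizing i with
  | nil =>
    rw [show mq t [] = 0 from rfl, Nat.zero_testBit]
    constructor
    · exact fun h => absurd h Bool.false_ne_true
    · rintro ⟨h, -⟩
      exact absurd h (Nat.not_lt_zero _)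
  | cons m l ih =>
    have h1 : mq t (m :: l) = 2 * mq t l + if m &&& t = t then 1 else 0 := rfl
    have h2 : (if m &&& t = t then 1 else 0) < 2 := by split_ifs <;> norm_num
    cases i with
    | zero =>
      rw [h1, Nat.testBit_zero, decide_eq_true_eq, Nat.mul_add_mod, Nat.mod_eq_of_lt h2]
      constructor
      · intro h3
        refine ⟨Nat.succ_pos _, ?_⟩
        by_contra h4
        have h5 : ¬ m &&& t = t := h4
        rw [if_neg h5] at h3
        exact absurd h3 (by norm_num)
      · rintro ⟨_, h3⟩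
        exact if_pos h3
    | succ i =>
      rw [h1, Nat.testBit_succ, Nat.mul_add_div (by norm_num), Nat.div_eq_of_lt h2, Nat.add_zero,
        ih]
      constructor
      · rintro ⟨h3, h4⟩
        exact ⟨Nat.succ_lt_succ h3, h4⟩
      · rintro ⟨h3, h4⟩
        exact ⟨Nat.lt_of_succ_lt_succ h3, h4⟩

theorem q4_eq : q4 = mkT ((List.range 330).map fun k => (k, spr ((L 11 4).getD k 0))) := by
  decide +kernel

theorem p2_eq : p2 = mkT ((List.range 55).map fun k =>
    (330 + 4 * k, spr ((L 11 2).getD k 0))) := by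
  decide +kernel

theorem t3_eq : t3 = mkT ((L 12 3).map fun t => (2 ^ 64 * mq t (L 12 4) + (4096 + t),
    4096 + t)) := by
  decide +kernel

/-! ## Scan -/

/-- the sum over the entries of a list with coefficients `g` -/
def sumG (m e : ℕ) (g : ℕ → ℕ → ℕ) : TL → ℕ
  | .nil => 0
  | .cons s S t => ((e >>> s) &&& m) * g s S + sumG m e g t

theorem scan_cons (g : ℕ → ℕ → ℕ) (s S : ℕ) (t acc : TL) :
    scan g (.cons s S t) acc = if g s S = 0 then scan g t acc
      else scan g t (.cons s (g s S) acc) := by
  have h : scan g (.cons s S t) acc = @Bool.rec (fun _ => TL)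
    (scan g t (.cons s (g s S) acc)) (scan g t acc) (Nat.beq (g s S) 0) := rfl
  rw [h]
  by_cases h0 : g s S = 0
  · rw [if_pos h0, h0]
    rfl
  · rw [if_neg h0]
    have h1 : Nat.beq (g s S) 0 = false := by
      rw [← Bool.not_eq_true, beq_iff]
      exact h0
    rw [h1]

theorem sumT_scan (m e : ℕ) (g : ℕ → ℕ → ℕ) (l acc : TL) :
    sumT m e (scan g l acc) = sumG m e g l + sumT m e acc := by
  induction l generalizing acc with
  | nil =>
    show sumT m e acc = 0 + sumT m e acc
    omega
  | cons s S t ih =>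
    rw [scan_cons]
    show _ = ((e >>> s) &&& m) * g s S + sumG m e g t + sumT m e acc
    split_ifs with h0
    · rw [ih, h0]
      omega
    · rw [ih]
      show sumG m e g t + (((e >>> s) &&& m) * g s S + sumT m e acc) = _
      omega

theorem allP_scan {p : ℕ → Prop} (g : ℕ → ℕ → ℕ) {l acc : TL} (hl : AllP p l)
    (ha : AllP p acc) : AllP p (scan g l acc) := by
  induction l generalizing acc with
  | nil => exact ha
  | cons s S t ih =>
    rw [scan_cons]
    split_ifs
    · exact ih hl.2 ha
    · exact ih hl.2 ⟨hl.1, ha⟩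

theorem allP_mkT {p : ℕ → Prop} {l : List (ℕ × ℕ)} (h : ∀ a ∈ l, p a.1) : AllP p (mkT l) := by
  induction l with
  | nil => trivial
  | cons a l ih => exact ⟨h a List.mem_cons_self, ih fun b hb => h b (List.mem_cons_of_mem _ hb)⟩

theorem sumG_mkT (m e : ℕ) (g : ℕ → ℕ → ℕ) (l : List (ℕ × ℕ)) :
    sumG m e g (mkT l) = (l.map fun a => ((e >>> a.1) &&& m) * g a.1 a.2).sum := by
  induction l with
  | nil => rfl
  | cons a l ih =>
    show ((e >>> a.1) &&& m) * g a.1 a.2 + sumG m e g (mkT l) = _
    rw [ih, List.map_cons, List.sum_cons]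

theorem sumG_q4 (e : ℕ) (g : ℕ → ℕ → ℕ) : sumG 1 e g q4 =
    ∑ k ∈ range 330, ((e >>> k) &&& 1) * g k (spr ((L 11 4).getD k 0)) := by
  rw [q4_eq, sumG_mkT, List.map_map, ← sum_map_range]
  rfl

theorem sumG_p2 (e : ℕ) (g : ℕ → ℕ → ℕ) : sumG 15 e g p2 =
    ∑ k ∈ range 55, ((e >>> (330 + 4 * k)) &&& 15) *
      g (330 + 4 * k) (spr ((L 11 2).getD k 0)) := by
  rw [p2_eq, sumG_mkT, List.map_map, ← sum_map_range]
  rfl

theorem base_mkT (D P SP C0 : ℕ) (l : List ℕ) (f : ℕ → ℕ) :
    base D P SP C0 (mkT (l.map fun t => (f t, 4096 + t))) =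
      (l.map fun t => if two ((D <<< 64) &&& f t) = true then 0
        else cofX P SP C0 (4096 + t)).sum := by
  induction l with
  | nil => rfl
  | cons a l ih =>
    rw [List.map_cons, List.map_cons, List.sum_cons, ← ih]
    show brN (two ((D <<< 64) &&& f a)) (base D P SP C0 (mkT (l.map fun t => (f t, 4096 + t))))
      (base D P SP C0 (mkT (l.map fun t => (f t, 4096 + t))) + cofX P SP C0 (4096 + a)) = _
    rw [brN_eq]
    split_ifs <;> omega

/-! ## Two bits -/

theorem two_false_iff (w : ℕ) : two w = false ↔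
    ∃ i j, i ≠ j ∧ w.testBit i = true ∧ w.testBit j = true := by
  have h0 : two w = true ↔ w &&& (w - 1) = 0 := beq_iff _ _
  constructor
  · intro h
    have h1 : ¬ w &&& (w - 1) = 0 := fun h2 => by
      rw [h0.2 h2] at h
      exact Bool.noConfusion h
    have hw : w ≠ 0 := by
      rintro rfl
      exact h1 (Nat.zero_and _)
    obtain ⟨t, h2, h3, -⟩ := lowbit hw
    obtain ⟨j, hj⟩ := Nat.exists_testBit_of_ne_zero h1
    refine ⟨t, j, ?_, h2, ?_⟩
    · rintro rfl
      have h4 := congrArg (fun z => Nat.testBit z t) h3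
      simp only [Nat.testBit_xor, Nat.testBit_two_pow] at h4
      rw [h2, hj] at h4
      simp at h4
    · rw [Nat.testBit_and, Bool.and_eq_true] at hj
      exact hj.1
  · rintro ⟨i, j, hij, hi, hj⟩
    rw [← Bool.not_eq_true, h0]
    intro h1
    have hw : w ≠ 0 := by
      rintro rfl
      rw [Nat.zero_testBit] at hi
      exact Bool.noConfusion hi
    obtain ⟨t, -, -, h4⟩ := lowbit hw
    by_cases hit : i = t
    · have h5 := h4 j hj (fun h => hij (hit.trans h.symm))
      rw [h1, Nat.zero_testBit] at h5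
      exact Bool.noConfusion h5
    · have h5 := h4 i hi hit
      rw [h1, Nat.zero_testBit] at h5
      exact Bool.noConfusion h5

end Pool.Agent.Helper34.TY
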