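import Pool.Agent.Helper34.TY.X2Def
import Pool.Agent.Helper34.TY.XSum

/-!
MP_8ee768_co, project TH-Y', stage X: the groups of the packed pair test, second version.
-/

set_option autoImplicit false
set_option maxRecDepth 20000
set_option exponentiation.threshold 1000

namespace Pool.Agent.Helper34.TY

open Pool.Agent.Helper63.SIMD

/-! ## Lists of entries -/

/-- all entries -/
def AllE (p : ℕ → ℕ → Prop) : TL → Prop
  | .nil => True
  | .cons s c t => p s c ∧ AllE p t

/-- length -/
def lenT : TL → ℕ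
  | .nil => 0
  | .cons _ _ t => lenT t + 1

/-- all positions have distance at least 64 from `s` -/
def Far (s : ℕ) (l : TL) : Prop := AllE (fun s' _ => s + 64 ≤ s' ∨ s' + 64 ≤ s) l

/-- all pairwise distances are at least 64 -/
def Sep : TL → Prop
  | .nil => True
  | .cons s _ t => Far s t ∧ Sep t

/-- the bounds of the entries -/
def EB (s c : ℕ) : Prop := s ≤ 330 ∧ c < 2 ^ 48

theorem AllE.imp {p q : ℕ → ℕ → Prop} (h : ∀ s c, p s c → q s c) {l : TL} (hl : AllE p l) :
    AllE q l := by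
  induction l with
  | nil => trivial
  | cons s c t ih => exact ⟨h s c hl.1, ih hl.2⟩

theorem AllE.imp2 {p q r : ℕ → ℕ → Prop} (h : ∀ s c, p s c → q s c → r s c) {l : TL}
    (hp : AllE p l) (hq : AllE q l) : AllE r l := by
  induction l with
  | nil => trivial
  | cons s c t ih => exact ⟨h s c hp.1 hq.1, ih hp.2 hq.2⟩

theorem allE_mkT {p : ℕ → ℕ → Prop} {l : List (ℕ × ℕ)} (h : ∀ a ∈ l, p a.1 a.2) :
    AllE p (mkT l) := by
  induction l with
  | nil => trivial
  | cons a l ih => exact ⟨h a List.mem_cons_self, ih fun b hb => h b (List.mem_cons_of_mem _ hb)⟩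

theorem lenT_mkT (l : List (ℕ × ℕ)) : lenT (mkT l) = l.length := by
  induction l with
  | nil => rfl
  | cons a l ih =>
    rw [List.length_cons, ← ih]
    rfl

theorem allE_scan {p : ℕ → ℕ → Prop} {g : ℕ → ℕ → ℕ} {l acc : TL}
    (hl : AllE (fun s S => p s (g s S)) l) (ha : AllE p acc) : AllE p (scan g l acc) := by
  induction l generalizing acc with
  | nil => exact ha
  | cons s S t ih =>
    rw [scan_cons]
    split_ifs
    · exact ih hl.2 ha
    · exact ih hl.2 ⟨hl.1, ha⟩

theorem lenT_scan (g : ℕ → ℕ → ℕ) (l acc : TL) :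
    lenT (scan g l acc) ≤ lenT l + lenT acc := by
  induction l generalizing acc with
  | nil =>
    show lenT acc ≤ 0 + lenT acc
    omega
  | cons s S t ih =>
    rw [scan_cons]
    have h1 : lenT (.cons s S t) = lenT t + 1 := rfl
    split_ifs
    · have := ih acc
      omega
    · have := ih (.cons s (g s S) acc)
      have h2 : lenT (.cons s (g s S) acc) = lenT acc + 1 := rfl
      omega

theorem sep_scan {g : ℕ → ℕ → ℕ} {l acc : TL} (hl : Sep l) (ha : Sep acc)
    (hf : AllE (fun s _ => Far s acc) l) : Sep (scan g l acc) := by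
  induction l generalizing acc with
  | nil => exact ha
  | cons s S t ih =>
    rw [scan_cons]
    split_ifs
    · exact ih hl.2 ha hf.2
    · refine ih hl.2 ⟨hf.1, ha⟩ ?_
      refine AllE.imp2 (fun s' c' h1 h2 => ?_) hl.1 hf.2
      exact ⟨by omega, h2⟩

/-! ## Masks -/

theorem mO_cons (w s c : ℕ) (t : TL) : mO w (.cons s c t) = (w <<< s) ||| mO w t := rfl

theorem CO_cons (s c : ℕ) (t : TL) : CO (.cons s c t) = (c <<< (576 - s)) + CO t := rfl

theorem shl_bit {w s j : ℕ} (hw : w < 16) (h : (w <<< s).testBit j = true) :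
    s ≤ j ∧ j < s + 4 := by
  rw [Nat.testBit_shiftLeft, Bool.and_eq_true, decide_eq_true_eq] at h
  refine ⟨h.1, ?_⟩
  by_contra h1
  have h2 : w < 2 ^ (j - s) := lt_of_lt_of_le (show w < 2 ^ 4 by norm_num; exact hw)
    (Nat.pow_le_pow_right (by norm_num) (by omega))
  rw [Nat.testBit_lt_two_pow h2] at h
  exact Bool.false_ne_true h.2

/-- the mask `m` has in the window of `s` only the bits of `w` at `s` -/
def Win (w m s : ℕ) : Prop :=
  ∀ j, s ≤ j + 60 → j < s + 64 → m.testBit j = (w <<< s).testBit j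

theorem far_bit {w s : ℕ} (hw : w < 16) {t : TL} (h : Far s t) {j : ℕ} (h1 : s ≤ j + 60)
    (h2 : j < s + 64) : (mO w t).testBit j = false := by
  induction t with
  | nil => exact Nat.zero_testBit j
  | cons s' c' t ih =>
    rw [mO_cons, Nat.testBit_or, ih h.2, Bool.or_false, ← Bool.not_eq_true]
    intro h3
    have h4 := shl_bit hw h3
    have h5 := h.1
    omega

theorem win_all {w : ℕ} (hw : w < 16) {M : TL} (h : Sep M) :
    AllE (fun s _ => Win w (mO w M) s) M := by
  induction M with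
  | nil => trivial
  | cons s c t ih =>
    refine ⟨fun j h1 h2 => ?_, AllE.imp2 (fun s' c' h3 h4 j h1 h2 => ?_) h.1 (ih h.2)⟩
    · rw [mO_cons, Nat.testBit_or, far_bit hw h.1 h1 h2, Bool.or_false]
    · rw [mO_cons, Nat.testBit_or, h4 j h1 h2]
      have h5 : (w <<< s).testBit j = false := by
        rw [← Bool.not_eq_true]
        intro h6
        have h7 := shl_bit hw h6
        omega
      rw [h5, Bool.false_or]

theorem mO_self {w : ℕ} (hw : w.testBit 0 = true) (M : TL) :
    AllE (fun s _ => (mO w M).testBit s = true) M := by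
  induction M with
  | nil => trivial
  | cons s c t ih =>
    refine ⟨?_, AllE.imp (fun s' c' h => ?_) ih⟩
    · show (mO w (.cons s c t)).testBit s = true
      rw [mO_cons, Nat.testBit_or, Nat.testBit_shiftLeft, Nat.sub_self, hw]
      simp
    · rw [mO_cons, Nat.testBit_or, h, Bool.or_true]

theorem mO_lt {w : ℕ} (hw : w < 16) {M : TL} (h : AllE EB M) : mO w M < 2 ^ 336 := by
  induction M with
  | nil => exact Nat.two_pow_pos _
  | cons s c t ih =>
    rw [mO_cons]
    refine Nat.or_lt_two_pow ?_ (ih h.2)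
    have h1 := h.1.1
    rw [Nat.shiftLeft_eq]
    calc w * 2 ^ s < 2 ^ 4 * 2 ^ s := Nat.mul_lt_mul_of_pos_right (by norm_num; exact hw)
          (Nat.two_pow_pos s)
      _ = 2 ^ (4 + s) := (pow_add _ _ _).symm
      _ ≤ 2 ^ 336 := Nat.pow_le_pow_right (by norm_num) (by omega)

theorem okG_far {w s : ℕ} (hw : w.testBit 0 = true) {M : TL} (h : okG (mO w M) s = true) :
    Far s M := by
  have h0 : (((mO w M) <<< 64) >>> (s + 1)) &&& 0x7fffffffffffffffffffffffffffffff = 0 :=
    Nat.eq_of_beq_eq_true h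
  have e : (0x7fffffffffffffffffffffffffffffff : ℕ) = 2 ^ 127 - 1 := by norm_num
  rw [e] at h0
  refine AllE.imp (fun s' c' h1 => ?_) (mO_self hw M)
  by_contra h2
  have h3 := congrArg (fun z => Nat.testBit z (s' + 63 - s)) h0
  simp only [Nat.testBit_and, Nat.testBit_shiftRight, Nat.testBit_shiftLeft,
    Nat.testBit_two_pow_sub_one, Nat.zero_testBit] at h3
  have h4 : s + 1 + (s' + 63 - s) - 64 = s' := by omega
  rw [h4, h1] at h3
  have h5 : 64 ≤ s + 1 + (s' + 63 - s) := by omega
  have h6 : s' + 63 - s < 127 := by omega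
  simp [h5, h6] at h3

/-! ## One entry -/

/-- the part of a masked number around the position `s` -/
theorem dec {w m s e : ℕ} (hw : w < 16) (h : Win w m s) : ∃ x l,
    e &&& m = 2 ^ (s + 64) * x + 2 ^ s * ((e >>> s) &&& w) + l ∧ l < 2 ^ (s - 60) ∧
      x ≤ e &&& m := by
  set a := e &&& m with ha
  have hb : a / 2 ^ s % 2 ^ 64 = (e >>> s) &&& w := by
    refine Nat.eq_of_testBit_eq fun t => ?_
    rw [Nat.testBit_mod_two_pow, Nat.testBit_div_two_pow, ha, Nat.testBit_and, Nat.testBit_and,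
      Nat.testBit_shiftRight]
    by_cases ht : t < 64
    · rw [h (t + s) (by omega) (by omega), Nat.testBit_shiftLeft, decide_eq_true ht,
        decide_eq_true (show t + s ≥ s by omega), Nat.add_sub_cancel, Bool.true_and,
        Bool.true_and, Nat.add_comm t s]
    · have h2 : w < 2 ^ t := lt_of_lt_of_le (show w < 2 ^ 4 by norm_num; exact hw)
        (Nat.pow_le_pow_right (by norm_num) (by omega))
      rw [decide_eq_false ht, Bool.false_and, Nat.testBit_lt_two_pow h2, Bool.and_false]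
  refine ⟨a / 2 ^ s / 2 ^ 64, a % 2 ^ s, ?_, ?_, ?_⟩
  · rw [← hb, pow_add]
    have h1 := Nat.div_add_mod a (2 ^ s)
    have h2 := Nat.div_add_mod (a / 2 ^ s) (2 ^ 64)
    generalize a / 2 ^ s % 2 ^ 64 = b at *
    generalize a / 2 ^ s / 2 ^ 64 = x at *
    generalize a % 2 ^ s = l at *
    rw [← h1, ← h2]
    ring
  · refine Nat.lt_pow_two_of_testBit _ fun j hj => ?_
    rw [Nat.testBit_mod_two_pow]
    by_cases h1 : j < s
    · rw [decide_eq_true h1, Bool.true_and, ha, Nat.testBit_and, h j (by omega) (by omega),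
        Nat.testBit_shiftLeft, decide_eq_false (show ¬ j ≥ s by omega), Bool.false_and,
        Bool.and_false]
    · rw [decide_eq_false h1, Bool.false_and]
  · exact (Nat.div_le_self _ _).trans (Nat.div_le_self _ _)

theorem entry {w m s c e : ℕ} (hw : w < 16) (hm : m < 2 ^ 336) (hs : s ≤ 330) (hc : c < 2 ^ 48)
    (h : Win w m s) : ∃ y z, (e &&& m) * (c <<< (576 - s)) =
      2 ^ 576 * (((e >>> s) &&& w) * c) + 2 ^ 640 * y + 2 ^ 64 * z ∧
      y ≤ 2 ^ 384 ∧ z ≤ 2 ^ 500 := by
  obtain ⟨x, l, h1, h2, h3⟩ := dec (e := e) hw h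
  have hx : x < 2 ^ 336 := lt_of_le_of_lt (h3.trans Nat.and_le_right) hm
  refine ⟨c * x, c * (2 ^ (512 - s) * l), ?_, ?_, ?_⟩
  · rw [h1, Nat.shiftLeft_eq]
    generalize (e >>> s) &&& w = b
    have e1 : (2 : ℕ) ^ 640 = 2 ^ (s + 64) * 2 ^ (576 - s) := by
      rw [← pow_add]
      congr 1
      omega
    have e2 : (2 : ℕ) ^ 576 = 2 ^ s * 2 ^ (576 - s) := by
      rw [← pow_add]
      congr 1
      omega
    have e3 : (2 : ℕ) ^ 64 * 2 ^ (512 - s) = 2 ^ (576 - s) := by
      rw [← pow_add]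
      congr 1
      omega
    rw [e1, e2]
    have e4 : 2 ^ 64 * (c * (2 ^ (512 - s) * l)) = c * l * (2 ^ 64 * 2 ^ (512 - s)) := by ring
    rw [e4, e3]
    ring
  · have h4 : c * x ≤ 2 ^ 48 * 2 ^ 336 := Nat.mul_le_mul hc.le hx.le
    rw [← pow_add] at h4
    exact h4
  · have h5 : 2 ^ (512 - s) * l ≤ 2 ^ 452 := by
      by_cases h6 : s < 60
      · have h7 : l = 0 := by
          have h8 : s - 60 = 0 := by omega
          rw [h8, pow_zero] at h2
          omega
        rw [h7, Nat.mul_zero]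
        exact Nat.zero_le _
      · calc 2 ^ (512 - s) * l ≤ 2 ^ (512 - s) * 2 ^ (s - 60) := Nat.mul_le_mul_left _ h2.le
          _ = 2 ^ (512 - s + (s - 60)) := (pow_add _ _ _).symm
          _ = 2 ^ 452 := by
            congr 1
            omega
    have h6 : c * (2 ^ (512 - s) * l) ≤ 2 ^ 48 * 2 ^ 452 := Nat.mul_le_mul hc.le h5
    rw [← pow_add] at h6
    exact h6

/-! ## Groups -/

/-- the sum over the groups -/
def sumR (e : ℕ) : TL → ℕ
  | .nil => 0
  | .cons m C t => (e &&& m) * C + sumR e t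

theorem grp_part {w m : ℕ} (e : ℕ) (hw : w < 16) (hm : m < 2 ^ 336) {M : TL}
    (hE : AllE EB M) (h : AllE (fun s _ => Win w m s) M) : ∃ y z, (e &&& m) * CO M =
      2 ^ 576 * sumT w e M + 2 ^ 640 * y + 2 ^ 64 * z ∧
      y ≤ lenT M * 2 ^ 384 ∧ z ≤ lenT M * 2 ^ 500 := by
  induction M with
  | nil => exact ⟨0, 0, rfl, Nat.zero_le _, Nat.zero_le _⟩
  | cons s c t ih =>
    obtain ⟨y1, z1, a1, a2, a3⟩ := ih hE.2 h.2
    obtain ⟨y2, z2, b1, b2, b3⟩ := entry (e := e) hw hm hE.1.1 hE.1.2 h.1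
    refine ⟨y2 + y1, z2 + z1, ?_, ?_, ?_⟩
    · rw [CO_cons, Nat.mul_add, a1, b1]
      show _ = 2 ^ 576 * (((e >>> s) &&& w) * c + sumT w e t) + _ + _
      ring
    · show y2 + y1 ≤ (lenT t + 1) * 2 ^ 384
      rw [Nat.add_mul, Nat.one_mul]
      omega
    · show z2 + z1 ≤ (lenT t + 1) * 2 ^ 500
      rw [Nat.add_mul, Nat.one_mul]
      omega

/-- the groups `g` represent the entries `l` -/
def GS (w : ℕ) (l g : TL) : Prop :=
  AllP (fun m => m < 2 ^ 336) g ∧ ∀ e, ∃ y z, sumR e g =
    2 ^ 576 * sumT w e l + 2 ^ 640 * y + 2 ^ 64 * z ∧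
      y ≤ lenT l * 2 ^ 384 ∧ z ≤ lenT l * 2 ^ 500

theorem GS.nil (w : ℕ) : GS w .nil .nil :=
  ⟨trivial, fun _ => ⟨0, 0, rfl, Nat.zero_le _, Nat.zero_le _⟩⟩

theorem GS.cons {w : ℕ} (hw : w < 16) {M g rest l : TL} (hM : AllE EB M) (hS : Sep M)
    (hg : GS w rest g) (hsum : ∀ e, sumT w e M + sumT w e rest = sumT w e l)
    (hlen : lenT M + lenT rest = lenT l) : GS w l (.cons (mO w M) (CO M) g) := by
  refine ⟨⟨mO_lt hw hM, hg.1⟩, fun e => ?_⟩
  obtain ⟨y1, z1, a1, a2, a3⟩ := grp_part e hw (mO_lt hw hM) hM (win_all hw hS)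
  obtain ⟨y2, z2, b1, b2, b3⟩ := hg.2 e
  refine ⟨y1 + y2, z1 + z2, ?_, ?_, ?_⟩
  · show (e &&& mO w M) * CO M + sumR e g = _
    rw [a1, b1, ← hsum e]
    ring
  · rw [← hlen, Nat.add_mul]
    omega
  · rw [← hlen, Nat.add_mul]
    omega

theorem brT_true (x y : TL) : brT true x y = x := rfl

theorem brT_false (x y : TL) : brT false x y = y := rfl

theorem takeG_cons (w : ℕ) (k : ℕ → ℕ → TL → TL) (s c : ℕ) (l : TL) (m C : ℕ) (rest : TL) :
    takeG w k (.cons s c l) m C rest = brT (okG m s)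
      (takeG w k l ((w <<< s) ||| m) ((c <<< (576 - s)) + C) rest)
      (takeG w k l m C (.cons s c rest)) := rfl

theorem takeG_spec {w : ℕ} (hw : w.testBit 0 = true) (k : ℕ → ℕ → TL → TL) {l M rest : TL}
    (hl : AllE EB l) (hM : AllE EB M) (hS : Sep M) (hr : AllE EB rest) :
    ∃ M' rest', takeG w k l (mO w M) (CO M) rest = k (mO w M') (CO M') rest' ∧ AllE EB M' ∧
      Sep M' ∧ AllE EB rest' ∧
      (∀ e, sumT w e M' + sumT w e rest' = sumT w e M + sumT w e rest + sumT w e l) ∧
      lenT M' + lenT rest' = lenT M + lenT rest + lenT l := by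
  induction l generalizing M rest with
  | nil => exact ⟨M, rest, rfl, hM, hS, hr, fun _ => rfl, rfl⟩
  | cons s c t ih =>
    rw [takeG_cons]
    by_cases h : okG (mO w M) s = true
    · rw [h, brT_true, ← mO_cons w s c M, ← CO_cons s c M]
      obtain ⟨M', rest', h1, h2, h3, h4, h5, h6⟩ := ih (M := .cons s c M) (rest := rest) hl.2
        ⟨hl.1, hM⟩ ⟨okG_far hw h, hS⟩ hr
      refine ⟨M', rest', h1, h2, h3, h4, fun e => ?_, ?_⟩
      · rw [h5 e]
        show ((e >>> s) &&& w) * c + sumT w e M + sumT w e rest + sumT w e t =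
          sumT w e M + sumT w e rest + (((e >>> s) &&& w) * c + sumT w e t)
        omega
      · rw [h6]
        show lenT M + 1 + lenT rest + lenT t = lenT M + lenT rest + (lenT t + 1)
        omega
    · rw [Bool.not_eq_true] at h
      rw [h, brT_false]
      obtain ⟨M', rest', h1, h2, h3, h4, h5, h6⟩ := ih (M := M) (rest := .cons s c rest) hl.2
        hM hS ⟨hl.1, hr⟩
      refine ⟨M', rest', h1, h2, h3, h4, fun e => ?_, ?_⟩
      · rw [h5 e]
        show sumT w e M + (((e >>> s) &&& w) * c + sumT w e rest) + sumT w e t =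
          sumT w e M + sumT w e rest + (((e >>> s) &&& w) * c + sumT w e t)
        omega
      · rw [h6]
        show lenT M + (lenT rest + 1) + lenT t = lenT M + lenT rest + (lenT t + 1)
        omega

theorem singles_GS {w : ℕ} (hw : w < 16) {l : TL} (hl : AllE EB l) : GS w l (singles w l) := by
  induction l with
  | nil => exact GS.nil w
  | cons s c t ih =>
    have h1 : singles w (.cons s c t) = .cons (w <<< s) (c <<< (576 - s)) (singles w t) := rfl
    have h2 : mO w (.cons s c .nil) = w <<< s := Nat.or_zero _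
    have h3 : CO (.cons s c .nil) = c <<< (576 - s) := Nat.add_zero _
    rw [h1, ← h2, ← h3]
    refine GS.cons hw (rest := t) ⟨hl.1, trivial⟩ ⟨trivial, trivial⟩ (ih hl.2) (fun e => ?_) ?_
    · show ((e >>> s) &&& w) * c + 0 + sumT w e t = ((e >>> s) &&& w) * c + sumT w e t
      omega
    · show 0 + 1 + lenT t = lenT t + 1
      omega

theorem grpG_GS {w : ℕ} (hw : w < 16) (hw0 : w.testBit 0 = true) (n : ℕ) {l : TL}
    (hl : AllE EB l) : GS w l (grpG w n l) := by
  induction n generalizing l with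
  | zero => exact singles_GS hw hl
  | succ n ih =>
    cases l with
    | nil => exact GS.nil w
    | cons s c t =>
      have h1 : grpG w (n + 1) (.cons s c t) = takeG w
        (fun m C rest => .cons m C (grpG w n rest)) (.cons s c t) (mO w .nil) (CO .nil) .nil :=
        rfl
      obtain ⟨M', rest', h2, h3, h4, h5, h6, h7⟩ := takeG_spec hw0
        (fun m C rest => .cons m C (grpG w n rest)) (M := .nil) (rest := .nil) hl trivial trivial
        trivial
      rw [h1, h2]
      refine GS.cons hw h3 h4 (ih h5) (fun e => ?_) ?_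
      · rw [h6 e]
        show 0 + 0 + sumT w e (.cons s c t) = _
        omega
      · rw [h7]
        show 0 + 0 + lenT (.cons s c t) = _
        omega

/-! ## The lanes -/

theorem tg_cons (X m C : ℕ) (t : TL) (a : ℕ) :
    tg X (.cons m C t) a = tg X t (a + (X &&& (m * R1)) * C) := rfl

theorem tg_pk {N k : ℕ} (hN : N ≤ 1152) (hk : k ≤ 576) {e : ℕ → ℕ} (he : ∀ i < N, e i < 2 ^ 576)
    {l : TL} (hl : AllP (fun m => m < 2 ^ (576 - k)) l) (a : ℕ → ℕ) :
    tg (pk 576 N e >>> k) l (pk 576 N a) = pk 576 N (fun i => a i + sumR (e i >>> k) l) := by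
  induction l generalizing a with
  | nil => exact pk_congr fun i _ => rfl
  | cons m C t ih =>
    have h1 : m * R1 = m * rep 576 1152 := rfl
    rw [tg_cons, h1, shr_land_longer hN hk he hl.1 (by norm_num),
      mul_comm (pk 576 N fun i => e i >>> k &&& m) C, mul_pk, pk_add, ih hl.2]
    refine pk_congr fun i _ => ?_
    show a i + C * (e i >>> k &&& m) + sumR (e i >>> k) t =
      a i + ((e i >>> k &&& m) * C + sumR (e i >>> k) t)
    ring

theorem shr_pk {N : ℕ} {A u z : ℕ → ℕ} (h : ∀ i < N, A i = 2 ^ 576 * u i + z i)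
    (hz : ∀ i < N, z i < 2 ^ 576) : pk 576 N A >>> 576 =
      pk 576 N (fun i => u i + if i + 1 < N then z (i + 1) else 0) := by
  have h1 : pk 576 N A = 2 ^ 576 * pk 576 N u + pk 576 N z := by
    rw [mul_pk, pk_add]
    exact pk_congr h
  rw [h1]
  cases N with
  | zero => simp [pk]
  | succ n =>
    have h2 : pk 576 (n + 1) z = 2 ^ 576 * pk 576 n (fun i => z (i + 1)) + z 0 := pk_cons
    have h3 : pk 576 n (fun i => z (i + 1)) =
        pk 576 (n + 1) (fun i => if i + 1 < n + 1 then z (i + 1) else 0) := by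
      rw [pk_succ, if_neg (lt_irrefl _), Nat.zero_mul, Nat.add_zero]
      refine pk_congr fun i hi => ?_
      rw [if_pos (by omega)]
    rw [h2, ← Nat.add_assoc, ← Nat.mul_add, Nat.shiftRight_eq_div_pow,
      Nat.mul_add_div (Nat.two_pow_pos _), Nat.div_eq_of_lt (hz 0 (Nat.succ_pos n)), Nat.add_zero,
      h3, pk_add]

end Pool.Agent.Helper34.TY
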