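import Pool.Agent.Helper34.TY.XTab
import Pool.Agent.Helper74.TY.XCnt

/-!
MP_8ee768_co, project TH-Y', stage X: finite checks, second part.
-/

set_option autoImplicit false
set_option maxRecDepth 20000

namespace Pool.Agent.Helper34.TY

open Pool.Agent.Helper63.SIMD Pool.Agent.Helper89.CV Pool.Agent.Helper79.CV

/-- `2 ^ 60 + (7 - cap)` of all counters -/
def thrs (P : ℕ) : ℕ :=
  @Nat.rec (fun _ => ℕ) 0 (fun j ih => Nat.add ih (Nat.mul (Nat.pow 16 j)
    (brN (Nat.beq j 11) 6 (brN (Nat.beq (Nat.land (Nat.shiftRight P j) 1) 0) 5 6)))) 12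

/-- the constant term -/
def chkT (P : ℕ) : Bool :=
  Nat.beq (Nat.add (thr (spr P)) (Nat.mul 4
    ((L 11 2).foldr (fun u s => Nat.add (c2 (spr P) (cz (spr P)) (spr u)) s) 0)))
    (Nat.add (Nat.pow 2 60) (thrs P))

theorem chkT_all : (L 11 3).all chkT = true := by decide +kernel

/-- the sum of `16 ^ r` over the pairs `r` of a quad -/
def prs (m : ℕ) : List ℕ → ℕ
  | [] => 0
  | u :: l => Nat.add (Nat.mul 16 (prs m l)) (brN (Nat.beq (Nat.land u m) u) 1 0)

theorem cqs_tab : Pool.Agent.Helper74.TY.cqs = (L 11 4).map fun m => prs m (L 11 2) := by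
  decide +kernel

end Pool.Agent.Helper34.TY
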