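import Pool.Agent.Helper34.TY.XSum
import Pool.Agent.Helper34.TY.XTab2

/-!
MP_8ee768_co, project TH-Y', stage X: soundness of the packed pair test `xf`.
-/

set_option autoImplicit false
set_option maxRecDepth 20000
set_option exponentiation.threshold 1000

namespace Pool.Agent.Helper34.TY

open Finset
open Pool.Agent.Helper63.SIMD
open Pool.Agent.Helper89.CV (OddCover ofMask)
open Pool.Agent.Helper97.CV Pool.Agent.Helper4.CV Pool.Agent.Helper79.CV
open Pool.Agent.Helper74.TY Pool.Agent.Helper62.TY

/-! ## Masks -/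

theorem lt11 {m k : ℕ} (h : m ∈ L 11 k) : m < 2048 := lt_of_mem_L h

theorem lt12 {m k : ℕ} (h : m ∈ L 12 k) : m < 4096 := lt_of_mem_L h

theorem ofMask_4096 {t : ℕ} (h : t < 4096) : ofMask (4096 + t) = insert 12 (ofMask t) := by
  have := ofMask_add (m := t) 12 h
  rw [Nat.add_comm]
  exact this

theorem ofMask_2048' {t : ℕ} (h : t < 2048) : ofMask (t + 2048) = insert 11 (ofMask t) :=
  ofMask_add (m := t) 11 h

theorem notMem12 {t : ℕ} (h : t < 4096) : (12 : Fin 13) ∉ ofMask t := notMem_ofMask 12 h

theorem notMem11 {t : ℕ} (h : t < 2048) : (11 : Fin 13) ∉ ofMask t := notMem_ofMask 11 h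

theorem card_of_mem {n k m : ℕ} (hn : n ≤ 13) (h : m ∈ L n k) : (ofMask m).card = k :=
  ((mem_L hn).1 h).2

/-! ## The bad quads of `x` -/

section main

variable {B : Finset (Finset (Fin 13))} {Y : Finset (Fin 13)} {P D : ℕ}

theorem mem_link12 (hD : link B 12 = fam 12 4 D) {i : ℕ} (hi : i < (L 12 4).length) :
    D.testBit i = true ↔ ofMask ((L 12 4)[i]) ∈ link B 12 := by
  rw [hD, mem_fam]
  constructor
  · exact fun h => ⟨i, hi, h, rfl⟩
  · rintro ⟨j, hj, h1, h2⟩
    have h3 : (L 12 4)[j] = (L 12 4)[i] :=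
      ofMask_injOn (lt_of_lt_of_le (lt_of_mem_L (List.getElem_mem hj)) (by norm_num))
        (lt_of_lt_of_le (lt_of_mem_L (List.getElem_mem hi)) (by norm_num)) h2
    rwa [(nodup_L 12 4).getElem_inj_iff.1 h3] at h1

theorem two_iff (hD : link B 12 = fam 12 4 D) {t : ℕ} (ht : t ∈ L 12 3) :
    two ((D <<< 64) &&& (2 ^ 64 * mq t (L 12 4) + (4096 + t))) = false ↔
      1 ≤ ex B (ofMask (4096 + t)) := by
  have htl := lt12 ht
  have hq : 4096 + t < 2 ^ 64 := by
    have : (8192 : ℕ) ≤ 2 ^ 64 := by norm_num
    omega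
  have hbit : ∀ i, ((D <<< 64) &&& (2 ^ 64 * mq t (L 12 4) + (4096 + t))).testBit i = true ↔
      64 ≤ i ∧ D.testBit (i - 64) = true ∧ (mq t (L 12 4)).testBit (i - 64) = true := by
    intro i
    rw [Nat.testBit_and, Nat.testBit_shiftLeft, Nat.testBit_two_pow_mul_add _ hq]
    by_cases h : i < 64
    · have h1 : ¬ 64 ≤ i := by omega
      simp [h1]
    · have h1 : 64 ≤ i := by omega
      simp [h, h1]
  have hmem : ∀ i, (mq t (L 12 4)).testBit i = true ↔
      ∃ h : i < (L 12 4).length, ofMask t ⊆ ofMask ((L 12 4)[i]) := by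
    intro i
    rw [testBit_mq]
    constructor
    · rintro ⟨h, h1⟩
      refine ⟨h, (ofMask_subset (lt_of_lt_of_le htl (by norm_num))).2 ?_⟩
      rw [Nat.land_comm]
      exact h1
    · rintro ⟨h, h1⟩
      refine ⟨h, ?_⟩
      have h2 := (ofMask_subset (lt_of_lt_of_le htl (by norm_num))).1 h1
      rw [Nat.land_comm] at h2
      exact h2
  have hex : ex B (ofMask (4096 + t)) = cnt (link B 12) (ofMask t) / 2 := by
    rw [ofMask_4096 htl]
    exact ex_insert B (notMem12 htl)
  have h2 : 1 ≤ ex B (ofMask (4096 + t)) ↔ 1 < cnt (link B 12) (ofMask t) := by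
    rw [hex]
    omega
  rw [two_false_iff, h2]
  unfold cnt
  rw [one_lt_card]
  constructor
  · rintro ⟨i, j, hij, hi, hj⟩
    obtain ⟨i1, i2, i3⟩ := (hbit i).1 hi
    obtain ⟨j1, j2, j3⟩ := (hbit j).1 hj
    obtain ⟨i4, i5⟩ := (hmem _).1 i3
    obtain ⟨j4, j5⟩ := (hmem _).1 j3
    refine ⟨_, mem_filter.2 ⟨(mem_link12 hD i4).1 i2, i5⟩, _,
      mem_filter.2 ⟨(mem_link12 hD j4).1 j2, j5⟩, ?_⟩
    intro h
    have h3 : (L 12 4)[i - 64] = (L 12 4)[j - 64] :=
      ofMask_injOn (lt_of_lt_of_le (lt_of_mem_L (List.getElem_mem i4)) (by norm_num))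
        (lt_of_lt_of_le (lt_of_mem_L (List.getElem_mem j4)) (by norm_num)) h
    have h4 := (nodup_L 12 4).getElem_inj_iff.1 h3
    omega
  · rintro ⟨a, ha, b, hb, hab⟩
    rw [mem_filter] at ha hb
    have ha1 := ha.1
    have hb1 := hb.1
    rw [hD, mem_fam] at ha1 hb1
    obtain ⟨i, hi, i1, i2⟩ := ha1
    obtain ⟨j, hj, j1, j2⟩ := hb1
    refine ⟨i + 64, j + 64, ?_, (hbit _).2 ⟨by omega, ?_, ?_⟩, (hbit _).2 ⟨by omega, ?_, ?_⟩⟩
    · intro h
      have : i = j := by omega
      subst this
      exact hab (i2.symm.trans j2)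
    · rwa [Nat.add_sub_cancel]
    · rw [Nat.add_sub_cancel, hmem]
      exact ⟨hi, by rw [i2]; exact ha.2⟩
    · rwa [Nat.add_sub_cancel]
    · rw [Nat.add_sub_cancel, hmem]
      exact ⟨hj, by rw [j2]; exact hb.2⟩

/-! ## Sums of the excess over the quads through 11 -/

theorem link_mem_card (hB : OddCover B) {x : Fin 13} {q : Finset (Fin 13)} (h : q ∈ link B x) :
    q.card = 4 := by
  rw [mem_link] at h
  have h1 := hB.1 _ h.2
  rw [card_insert_of_notMem h.1] at h1
  omega

/-- the number of the quads of the link of 11 inside `{0, .., 10}` through the set with mask `u` -/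
def deg (B : Finset (Finset (Fin 13))) (u : ℕ) : ℕ :=
  ((L 11 4).map fun m => if ofMask m ∈ link B 11 ∧ u &&& m = u then 1 else 0).sum

/-- the excess of the quads `11 + t`, `t` a triple of `{0, .., 10}` through the mask `u` -/
def psum (B : Finset (Finset (Fin 13))) (u : ℕ) : ℕ :=
  ((L 11 3).map fun t => if u &&& t = u then ex B (ofMask (t + 2048)) else 0).sum

theorem deg_eq (hB : OddCover B) {u : ℕ} (hu : u ∈ L 11 2) :
    cnt (link B 11) (ofMask u) = deg B u + cnt B (insert 12 (insert 11 (ofMask u))) := by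
  have hul := lt11 hu
  have hu13 : u < 2 ^ 13 := lt_of_lt_of_le hul (by norm_num)
  have h1 : cnt B (insert 12 (insert 11 (ofMask u))) =
      ((link B 11).filter fun q => ofMask u ⊆ q ∧ 12 ∈ q).card := by
    rw [insert_comm, ← cnt_link B (x := 11) (s := insert 12 (ofMask u))]
    · unfold cnt
      congr 1
      refine filter_congr fun q _ => ?_
      rw [insert_subset_iff, and_comm]
    · rw [mem_insert, not_or]
      exact ⟨by decide, notMem11 hul⟩
  have h2 : deg B u = ((link B 11).filter fun q => ofMask u ⊆ q ∧ ¬ 12 ∈ q).card := by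
    unfold deg
    rw [← List.sum_toFinset _ (nodup_L 11 4), ← card_filter]
    refine card_bij (fun m _ => ofMask m) ?_ ?_ ?_
    · intro m hm
      rw [mem_filter, List.mem_toFinset] at hm
      have hml := lt11 hm.1
      rw [mem_filter]
      exact ⟨hm.2.1, (ofMask_subset hu13).2 hm.2.2, notMem12 (by omega)⟩
    · intro m hm m' hm' h
      rw [mem_filter, List.mem_toFinset] at hm hm'
      have hml := lt11 hm.1
      have hml' := lt11 hm'.1
      exact ofMask_injOn (lt_of_lt_of_le hml (by norm_num)) (lt_of_lt_of_le hml' (by norm_num)) h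
    · intro q hq
      rw [mem_filter] at hq
      have hc := link_mem_card hB hq.1
      have h11 := (mem_link.1 hq.1).1
      have hlt : mk q < 2 ^ 11 := by
        rw [mk_lt_iff]
        intro a ha
        by_contra h3
        have h4 : a = 11 ∨ a = 12 := by
          have := a.isLt
          have h5 : a.val = 11 ∨ a.val = 12 := by omega
          rcases h5 with h5 | h5
          · exact Or.inl (Fin.ext h5)
          · exact Or.inr (Fin.ext h5)
        rcases h4 with h4 | h4
        · exact h11 (h4 ▸ ha)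
        · exact hq.2.2 (h4 ▸ ha)
      refine ⟨mk q, ?_, ofMask_mk q⟩
      rw [mem_filter, List.mem_toFinset, mem_L (by norm_num), ofMask_mk]
      refine ⟨⟨hlt, hc⟩, hq.1, (ofMask_subset hu13).1 ?_⟩
      rw [ofMask_mk]
      exact hq.2.1
  rw [h1, h2]
  unfold cnt
  rw [← card_filter_add_card_filter_not (s := (link B 11).filter fun q => ofMask u ⊆ q)
    (fun q => (12 : Fin 13) ∈ q), filter_filter, filter_filter, add_comm]

theorem Lam_eq (hB : OddCover B) {u : ℕ} (hu : u ∈ L 11 2) :
    Lam B (insert 11 (ofMask u)) = psum B u + ex B (insert 12 (insert 11 (ofMask u))) := by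
  have hul := lt11 hu
  have hu13 : u < 2 ^ 13 := lt_of_lt_of_le hul (by norm_num)
  set K := insert 11 (ofMask u) with hK
  have hKc : K.card = 3 := by
    rw [hK, card_insert_of_notMem (notMem11 hul), card_of_mem (by norm_num) hu]
  have h0 : Lam B K = ∑ q ∈ quads, (fun m => if K ⊆ ofMask m then ex B (ofMask m) else 0)
      (mk q) := by
    unfold Lam LamW
    rw [sum_filter]
    refine sum_congr rfl fun q _ => ?_
    simp only [ofMask_mk]
  rw [h0, sum_split (fun m => if K ⊆ ofMask m then ex B (ofMask m) else 0)]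
  have e1 : ((L 11 4).map fun m => if K ⊆ ofMask m then ex B (ofMask m) else 0).sum = 0 := by
    rw [sum_map_congr (g := fun _ => 0)]
    · simp
    · intro m hm
      refine if_neg fun h => notMem11 (lt11 hm) (h ?_)
      rw [hK]
      exact mem_insert_self _ _
  have e2 : ((L 11 3).map fun t => (fun m => if K ⊆ ofMask m then ex B (ofMask m) else 0)
      (t + 2048)).sum = psum B u := by
    unfold psum
    refine sum_map_congr fun t ht => ?_
    have htl := lt11 ht
    have h1 : K ⊆ ofMask (t + 2048) ↔ u &&& t = u := by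
      rw [ofMask_2048' htl, hK, ← ofMask_subset hu13]
      constructor
      · intro h a ha
        rcases mem_insert.1 (h (mem_insert_of_mem ha)) with h2 | h2
        · exact absurd (h2 ▸ ha) (notMem11 hul)
        · exact h2
      · exact fun h => insert_subset_insert _ h
    simp only [h1]
  have e3 : ((L 12 3).map fun t => (fun m => if K ⊆ ofMask m then ex B (ofMask m) else 0)
      (t + 4096)).sum = ex B (insert 12 K) := by
    have hmk : mk K ∈ (L 12 3).toFinset := by
      rw [List.mem_toFinset, mem_L (by norm_num), ofMask_mk]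
      refine ⟨mk_lt_iff.2 fun a ha => ?_, hKc⟩
      rw [hK, mem_insert] at ha
      rcases ha with rfl | ha
      · decide
      · have h1 : a.val < 11 := by
          have h2 := mk_lt_iff (n := 11) (s := ofMask u)
          rw [mk_ofMask hu13] at h2
          exact h2.1 hul a ha
        omega
    rw [← List.sum_toFinset _ (nodup_L 12 3), ← add_sum_erase _ _ hmk]
    have h1 : (fun m => if K ⊆ ofMask m then ex B (ofMask m) else 0) (mk K + 4096) =
        ex B (insert 12 K) := by
      have h2 : ofMask (mk K + 4096) = insert 12 K := by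
        rw [Nat.add_comm, ofMask_4096 (lt12 (List.mem_toFinset.1 hmk)), ofMask_mk]
      simp only [h2, subset_insert, if_true]
    rw [h1]
    have h3 : ∑ x ∈ (L 12 3).toFinset.erase (mk K),
        (fun m => if K ⊆ ofMask m then ex B (ofMask m) else 0) (x + 4096) = 0 := by
      refine sum_eq_zero fun t ht => ?_
      rw [mem_erase, List.mem_toFinset] at ht
      refine if_neg fun h => ht.1 ?_
      have htl := lt12 ht.2
      rw [Nat.add_comm, ofMask_4096 htl] at h
      have h4 : K ⊆ ofMask t := by
        intro a ha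
        rcases mem_insert.1 (h ha) with h5 | h5
        · rw [h5, hK, mem_insert] at ha
          rcases ha with ha | ha
          · exact absurd ha (by decide)
          · exact absurd ha (notMem12 (by omega))
        · exact h5
      have h5 : K = ofMask t :=
        eq_of_subset_of_card_le h4 (by rw [card_of_mem (by norm_num) ht.2, hKc])
      rw [h5, mk_ofMask (lt_of_lt_of_le htl (by norm_num))]
    rw [h3, add_zero]
  rw [e1, e2, e3]
  omega

/-- the pair degree and the bad triples -/
theorem deg_psum (hB : OddCover B) {u : ℕ} (hu : u ∈ L 11 2) :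
    deg B u + ex B (insert 12 (insert 11 (ofMask u))) = 4 + psum B u := by
  have hul := lt11 hu
  have h1 := deg_eq hB hu
  have h2 := Lam_eq hB hu
  have h3 := cnt_link B (x := 11) (s := ofMask u) (notMem11 hul)
  have hKc : (insert 11 (ofMask u)).card = 3 := by
    rw [card_insert_of_notMem (notMem11 hul), card_of_mem (by norm_num) hu]
  have h4 := cnt_triple hB hKc
  have h5 : (insert 12 (insert 11 (ofMask u))).card = 4 := by
    rw [card_insert_of_notMem, hKc]
    rw [mem_insert, not_or]
    exact ⟨by decide, notMem12 (by omega)⟩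
  have h6 := cnt_quad hB h5
  omega

end main

end Pool.Agent.Helper34.TY
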