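import Pool.Agent.Helper34.TY.XDef
import Pool.Agent.Helper97.CV.Cube

/-!
MP_8ee768_co, project TH-Y', stage X: the packed test lane by lane.
-/

set_option autoImplicit false
set_option exponentiation.threshold 1000

namespace Pool.Agent.Helper34.TY

open Pool.Agent.Helper63.SIMD Pool.Agent.Helper97.CV.KillW Pool.Agent.Helper97.CV.Cube

/-- the sum of the fields of one lane times the coefficients -/
def sumT (m e : ℕ) : TL → ℕ
  | .nil => 0
  | .cons s c t => ((e >>> s) &&& m) * c + sumT m e t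

/-- the list of the entries as a `TL` -/
def mkT : List (ℕ × ℕ) → TL
  | [] => .nil
  | p :: l => .cons p.1 p.2 (mkT l)

/-- all positions of a list -/
def AllP (p : ℕ → Prop) : TL → Prop
  | .nil => True
  | .cons s _ t => p s ∧ AllP p t

/-- a longer mask -/
theorem land_pk_longer {W N N' : ℕ} (h : N ≤ N') {a m : ℕ → ℕ} (ha : ∀ i < N, a i < 2 ^ W)
    (hm : ∀ i, m i < 2 ^ W) : pk W N a &&& pk W N' m = pk W N (fun i => a i &&& m i) := by
  rw [pk_ext h, pk_land (fun i _ => ?_) (fun i _ => hm i), pk_ext h]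
  · refine pk_congr fun i _ => ?_
    unfold ext
    split_ifs
    · rfl
    · exact Nat.zero_and _
  · unfold ext
    split_ifs with h1
    · exact ha i h1
    · exact Nat.two_pow_pos W

/-- shift and mask with a longer mask -/
theorem shr_land_longer {S n n' k : ℕ} (hn : n ≤ n') (hk : k ≤ S) {a : ℕ → ℕ} {m : ℕ}
    (ha : ∀ i < n, a i < 2 ^ S) (hm : m < 2 ^ (S - k)) (hS : 0 < S) :
    (pk S n a >>> k) &&& (m * rep S n') = pk S n (fun i => (a i >>> k) &&& m) := by
  have hm' : m < 2 ^ S := lt_of_lt_of_le hm (Nat.pow_le_pow_right (by norm_num) (Nat.sub_le _ _))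
  have h1 := lane_shr_land (S := S) (n := n) (k := k) hk (a := a) (m := fun _ => m) ha
    (fun _ _ => hm)
  have h2 : m * rep S n' = pk S n' (fun _ => m) := mul_rep hS m
  have h3 : pk S n a >>> k < 2 ^ (S * n) :=
    lt_of_le_of_lt (Nat.shiftRight_le _ _) (pk_lt ha)
  have h4 : pk S n (fld S (pk S n a >>> k)) = pk S n a >>> k := pk_fld h3
  rw [h2, ← h1]
  conv_lhs => rw [← h4]
  conv_rhs => rw [← h4]
  rw [land_pk_longer hn (fun i _ => fld_lt) (fun _ => hm'),
    land_pk_longer le_rfl (fun i _ => fld_lt) (fun _ => hm')]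

theorem tm_cons (M X s c : ℕ) (t : TL) (a : ℕ) :
    tm M X (.cons s c t) a = tm M X t (a + ((X >>> s) &&& M) * c) := rfl

theorem tm_nil (M X a : ℕ) : tm M X .nil a = a := rfl

theorem tm_pk {N m : ℕ} (hN : N ≤ 1152) {e : ℕ → ℕ} (he : ∀ i < N, e i < 2 ^ 576) {l : TL}
    (hl : AllP (fun s => s ≤ 576 ∧ m < 2 ^ (576 - s)) l) (a : ℕ → ℕ) :
    tm (m * rep 576 1152) (pk 576 N e) l (pk 576 N a) =
      pk 576 N (fun i => a i + sumT m (e i) l) := by
  induction l generalizing a with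
  | nil => exact pk_congr fun i _ => rfl
  | cons s c t ih =>
    rw [tm_cons, shr_land_longer hN hl.1.1 he hl.1.2 (by norm_num),
      mul_comm (pk 576 N fun i => e i >>> s &&& m) c, mul_pk, pk_add, ih hl.2]
    refine pk_congr fun i _ => ?_
    show a i + c * (e i >>> s &&& m) + sumT m (e i) t =
      a i + ((e i >>> s &&& m) * c + sumT m (e i) t)
    ring

theorem mulE (a b : ℕ) : Nat.mul a b = a * b := rfl

theorem landE (a b : ℕ) : Nat.land a b = a &&& b := rfl

theorem subE (a b : ℕ) : Nat.sub a b = a - b := rfl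

theorem shlE (a b : ℕ) : Nat.shiftLeft a b = a <<< b := rfl

theorem full_eq (N : ℕ) : full N = 2 ^ (576 * N) - 1 := by
  unfold full
  rw [subE, shlE, mulE, Nat.one_shiftLeft]

theorem one_eq {N : ℕ} (hN : N ≤ 1152) : one N = pk 576 N (fun _ => 1) := by
  have h1 : rep 576 1152 = pk 576 1152 (fun _ => 1) := rep_eq (by norm_num)
  have h3 : 2 ^ (576 * N) - 1 = pk 576 N (fun _ => 2 ^ 576 - 1) := by
    have h4 := pk_one_mul (W := 576) (N := N) (by norm_num)
    rw [← h4, mul_comm, mul_pk]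
    exact pk_congr fun i _ => mul_one _
  unfold one R1
  rw [landE, full_eq, h3, h1, Nat.land_comm,
    land_pk_longer hN (fun _ _ => by norm_num) (fun _ => by norm_num)]
  refine pk_congr fun i _ => ?_
  norm_num

theorem R15_eq : R15 = 15 * rep 576 1152 := by
  unfold R15 R1
  generalize rep 576 1152 = r
  exact mulE _ _

theorem R1_eq : R1 = 1 * rep 576 1152 := by
  unfold R1
  exact (Nat.one_mul _).symm

/-- the accumulator, lane by lane -/
theorem acc_pk {N : ℕ} (hN : N ≤ 1152) {e : ℕ → ℕ} (he : ∀ i < N, e i < 2 ^ 576) {l1 l2 : TL}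
    (h1 : AllP (fun s => s ≤ 572) l1) (h2 : AllP (fun s => s ≤ 572) l2) (B0 : ℕ) :
    acc l1 l2 B0 (one N) (pk 576 N e) =
      pk 576 N (fun i => B0 + sumT 1 (e i) l1 + sumT 15 (e i) l2) := by
  have hp : ∀ s m : ℕ, s ≤ 572 → m ≤ 15 → s ≤ 576 ∧ m < 2 ^ (576 - s) := by
    intro s m hs hm
    refine ⟨by omega, ?_⟩
    calc m < 2 ^ 4 := by omega
      _ ≤ 2 ^ (576 - s) := Nat.pow_le_pow_right (by norm_num) (by omega)
  have hall : ∀ (m : ℕ), m ≤ 15 → ∀ l : TL, AllP (fun s => s ≤ 572) l →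
      AllP (fun s => s ≤ 576 ∧ m < 2 ^ (576 - s)) l := by
    intro m hm l
    induction l with
    | nil => exact fun _ => trivial
    | cons s c t ih => exact fun h => ⟨hp s m h.1 hm, ih h.2⟩
  have hz : (0 : ℕ) = pk 576 N (fun _ => 0) := by simp [pk]
  show tm R15 (pk 576 N e) l2 0 + tm R1 (pk 576 N e) l1 (B0 * one N) = _
  conv_lhs => rw [hz]
  rw [one_eq hN, mul_pk, R15_eq, R1_eq, tm_pk hN he (hall 1 (by norm_num) l1 h1),
    tm_pk hN he (hall 15 le_rfl l2 h2), pk_add]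
  exact pk_congr fun i _ => by rw [mul_one]; omega

/-- the bit `576 * i` of a packed number -/
theorem testBit_pk {N : ℕ} {a : ℕ → ℕ} (ha : ∀ i < N, a i < 2 ^ 576) {i : ℕ} (hi : i < N) :
    (pk 576 N a).testBit (576 * i) = (a i).testBit 0 := by
  have h := fld_pk ha hi
  rw [← h]
  unfold fld
  rw [Nat.testBit_mod_two_pow, Nat.testBit_div_two_pow, Nat.zero_add]
  simp

/-- the alive bit of a lane -/
theorem alive_bit {N : ℕ} (hN : N ≤ 1152) {e : ℕ → ℕ} (he : ∀ i < N, e i < 2 ^ 576) {l1 l2 : TL}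
    (h1 : AllP (fun s => s ≤ 572) l1) (h2 : AllP (fun s => s ≤ 572) l2) {B0 : ℕ}
    (hv : ∀ i < N, B0 + sumT 1 (e i) l1 + sumT 15 (e i) l2 < 2 ^ 576) {i : ℕ} (hi : i < N)
    (hz : (B0 + sumT 1 (e i) l1 + sumT 15 (e i) l2) &&& 0x888888888888 = 0) :
    (alive l1 l2 B0 (pk 576 N e) (one N)).testBit (576 * i) = true := by
  have hO := one_eq hN
  have hsmall : ∀ x : ℕ, x &&& 0x888888888888 < 2 ^ 48 := fun x =>
    lt_of_le_of_lt Nat.and_le_right (by norm_num)
  have e1 : alive l1 l2 B0 (pk 576 N e) (one N) = (one N) ^^^ ((((acc l1 l2 B0 (one N)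
      (pk 576 N e)) &&& (0x888888888888 * one N)) + 0xfffffffffffff * one N) >>> 52 &&& one N) :=
    rfl
  rw [e1, acc_pk hN he h1 h2, hO, mul_pk, mul_pk, pk_land hv (fun _ _ => by norm_num), pk_add]
  have h3 : ∀ j < N, ((B0 + sumT 1 (e j) l1 + sumT 15 (e j) l2) &&& 0x888888888888 * 1) +
      0xfffffffffffff * 1 < 2 ^ 576 := by
    intro j _
    have := hsmall (B0 + sumT 1 (e j) l1 + sumT 15 (e j) l2)
    have h4 : (2 : ℕ) ^ 53 ≤ 2 ^ 576 := Nat.pow_le_pow_right (by norm_num) (by norm_num)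
    rw [mul_one, mul_one]
    have h5 : (2 : ℕ) ^ 48 + 0xfffffffffffff < 2 ^ 53 := by norm_num
    omega
  rw [lane_shr_land (by norm_num) h3 (fun _ _ => by norm_num),
    pk_xor (fun _ _ => by norm_num) (fun j _ => lt_of_le_of_lt Nat.and_le_right (by norm_num)),
    testBit_pk (fun j _ => ?_) hi]
  · show (1 ^^^ ((((B0 + sumT 1 (e i) l1 + sumT 15 (e i) l2) &&& 0x888888888888 * 1) +
      0xfffffffffffff * 1) >>> 52 &&& 1)).testBit 0 = true
    rw [mul_one, hz]
    rfl
  · refine lt_of_lt_of_le (Nat.xor_lt_two_pow (n := 1) (by norm_num) ?_)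
      (Nat.pow_le_pow_right (by norm_num) (by norm_num))
    exact lt_of_le_of_lt Nat.and_le_right (by norm_num)

end Pool.Agent.Helper34.TY
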