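import Pool.Agent.Helper34.TY.XTab
import Pool.Agent.Helper34.TY.XLane
import Pool.Agent.Helper62.TY.Rule8

/-!
MP_8ee768_co, project TH-Y', stage X: the counters of the packed test and rule (8).
-/

set_option autoImplicit false

namespace Pool.Agent.Helper34.TY

open Finset
open Pool.Agent.Helper63.SIMD
open Pool.Agent.Helper89.CV (OddCover ofMask)
open Pool.Agent.Helper97.CV Pool.Agent.Helper4.CV Pool.Agent.Helper79.CV
open Pool.Agent.Helper74.TY Pool.Agent.Helper62.TY

/-! ## The primitives -/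

theorem brN_true (x y : ℕ) : brN true x y = x := rfl

theorem brN_false (x y : ℕ) : brN false x y = y := rfl

theorem brN_eq (b : Bool) (x y : ℕ) : brN b x y = if b = true then x else y := by
  cases b <;> rfl

theorem beq_iff (a b : ℕ) : Nat.beq a b = true ↔ a = b :=
  ⟨Nat.eq_of_beq_eq_true, fun h => by rw [h]; exact Nat.beq_refl b⟩

theorem brN_beq (a b x y : ℕ) : brN (Nat.beq a b) x y = if a = b then x else y := by
  rw [brN_eq]
  simp only [beq_iff]

theorem pop_eq {m : ℕ} (hm : m < 2 ^ 13) : pop m = (ofMask m).card := by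
  have h1 : (ofMask m).card < 14 := by
    have := card_le_univ (ofMask m)
    rw [Fintype.card_fin] at this
    omega
  exact pop_tab _ h1 m ((mem_L le_rfl).2 ⟨hm, rfl⟩)

theorem phiN_eq {i : ℕ} (h : i ≤ 4) : phiN i = phi i := by
  interval_cases i <;> rfl

theorem testBit_iff (P j : ℕ) : P.testBit j = true ↔ ¬ Nat.land (Nat.shiftRight P j) 1 = 0 := by
  have h : Nat.land (Nat.shiftRight P j) 1 = (P >>> j) % 2 := Nat.and_one_is_mod _
  rw [h, Nat.shiftRight_eq_div_pow, Nat.testBit_eq_decide_div_mod_eq, decide_eq_true_eq]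
  omega

theorem card_inter_mask {q K : Finset (Fin 13)} {m : ℕ} (hq : q.card = 4)
    (hK : ofMask m = K) : phiN (pop (Nat.land (mk q) m)) = phi (q ∩ K).card := by
  have h1 : mk q &&& m < 2 ^ 13 := lt_of_le_of_lt Nat.and_le_left (mk_lt q)
  have h2 : pop (Nat.land (mk q) m) = (q ∩ K).card := by
    have h3 : Nat.land (mk q) m = mk q &&& m := rfl
    rw [h3, pop_eq h1, ofMask_land, ofMask_mk, hK]
  rw [h2, phiN_eq]
  have := card_le_card (inter_subset_left : q ∩ K ⊆ q)
  omega

section coef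

variable {B : Finset (Finset (Fin 13))} {Y : Finset (Fin 13)} {P : ℕ}

/-- caps of the counters -/
def cap (P j : ℕ) : ℕ := if j = 11 then 1 else if P.testBit j = true then 1 else 2

theorem P_lt (hP : P = mk (Y.erase 11)) : P < 2 ^ 13 := by rw [hP]; exact mk_lt _

theorem mask_erase (hP : P = mk (Y.erase 11)) : ofMask P = Y.erase 11 := by rw [hP, ofMask_mk]

theorem ofMask_6144 : ofMask 6144 = {11, 12} := by decide

theorem ofMask_2048 : ofMask 2048 = {11} := by decide

theorem ofMask_two_pow (j : Fin 13) : ofMask (2 ^ (j : ℕ)) = {j} := by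
  have h := ofMask_add (m := 0) j (Nat.two_pow_pos _)
  rw [Nat.zero_add, ofMask_zero] at h
  rw [h]
  rfl

/-- the counter of `x + Y` -/
theorem sum_cof_11 (hX : XVec B 12 Y) (h11 : (11 : Fin 13) ∈ Y) (hP : P = mk (Y.erase 11)) :
    ∑ q ∈ quads, cofj P 11 (mk q) * ex B q ≤ 1 := by
  refine le_of_eq_of_le (sum_congr rfl fun q hq => ?_) (T1 hX (g := ex B) fun _ _ => le_rfl)
  congr 1
  have h1 : cofj P 11 (mk q) = phiN (pop (Nat.land (mk q) (Nat.lor P 6144))) := by
    unfold cofj
    rw [brN_beq, if_pos rfl]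
  rw [h1]
  refine card_inter_mask (mem_quads.1 hq) ?_
  have h2 : Nat.lor P 6144 = P ||| 6144 := rfl
  rw [h2, ofMask_lor, mask_erase hP, ofMask_6144]
  ext a
  simp only [mem_union, mem_erase, mem_insert, mem_singleton]
  by_cases ha : a = 11
  · subst ha
    simp [h11]
  · by_cases ha' : a = 12
    · subst ha'
      simp
    · simp [ha, ha']

theorem cofj_heavy {j : ℕ} (hj : j < 11) (hb : ¬ P.testBit j = true) (m : ℕ) :
    cofj P j m = phiN (pop (Nat.land m (Nat.lor P (Nat.lor (Nat.pow 2 j) 2048)))) := by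
  unfold cofj
  rw [testBit_iff, not_not] at hb
  rw [brN_beq, if_neg (by omega), brN_beq, if_pos hb]

theorem cofj_light {j : ℕ} (hj : j < 11) (hb : P.testBit j = true) (m : ℕ) :
    cofj P j m = if Nat.land (Nat.xor P (Nat.pow 2 j)) m = Nat.xor P (Nat.pow 2 j) then 1 else 0 := by
  unfold cofj
  rw [testBit_iff] at hb
  rw [brN_beq, if_neg (by omega), brN_beq, if_neg hb, brN_beq]

/-- the counter of `h + Y` -/
theorem sum_cof_heavy (hX : XVec B 12 Y) (h11 : (11 : Fin 13) ∈ Y) (hP : P = mk (Y.erase 11))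
    {j : ℕ} (hj : j < 11) (hb : ¬ P.testBit j = true) :
    ∑ q ∈ quads, cofj P j (mk q) * ex B q ≤ 2 := by
  set z : Fin 13 := ⟨j, by omega⟩ with hz
  have hz12 : z ≠ 12 := fun h => by
    have := congrArg Fin.val h
    simp only [hz] at this
    omega
  have hz11 : z ≠ 11 := fun h => by
    have := congrArg Fin.val h
    simp only [hz] at this
    omega
  have hzY : z ∉ Y := by
    intro h
    have h1 : z ∈ ofMask P := by
      rw [mask_erase hP, mem_erase]
      exact ⟨hz11, h⟩
    exact hb (mem_ofMask.1 h1)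
  refine le_of_eq_of_le (sum_congr rfl fun q hq => ?_)
    (T3 hX hz12 hzY (g := ex B) fun _ _ => le_rfl)
  congr 1
  rw [cofj_heavy hj hb]
  refine card_inter_mask (mem_quads.1 hq) ?_
  have h2 : Nat.lor P (Nat.lor (Nat.pow 2 j) 2048) = P ||| (2 ^ j ||| 2048) := rfl
  have h3 : (2 : ℕ) ^ j = 2 ^ (z : ℕ) := rfl
  rw [h2, ofMask_lor, ofMask_lor, mask_erase hP, h3, ofMask_two_pow, ofMask_2048]
  ext a
  simp only [mem_union, mem_erase, mem_insert, mem_singleton]
  by_cases ha : a = 11
  · subst ha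
    simp [h11]
  · simp only [ha, ne_eq, not_false_eq_true, true_and, or_false]
    tauto

/-- the counter of the pair `P - j` -/
theorem sum_cof_light (hX : XVec B 12 Y) (h11 : (11 : Fin 13) ∈ Y) (hP : P = mk (Y.erase 11))
    {j : ℕ} (hj : j < 11) (hb : P.testBit j = true) :
    ∑ q ∈ quads, cofj P j (mk q) * ex B q ≤ 1 := by
  set z : Fin 13 := ⟨j, by omega⟩ with hz
  have hzE : z ∈ Y.erase 11 := by
    rw [← mask_erase hP, mem_ofMask]
    exact hb
  have hc : ((Y.erase 11).erase z).card = 2 := by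
    rw [card_erase_of_mem hzE, card_erase_of_mem h11, hX.card]
  obtain ⟨u, v, huv, hE⟩ := card_eq_two.1 hc
  have hu : u ∈ Y := by
    have : u ∈ (Y.erase 11).erase z := by rw [hE]; exact mem_insert_self _ _
    exact mem_of_mem_erase (mem_of_mem_erase this)
  have hv : v ∈ Y := by
    have : v ∈ (Y.erase 11).erase z := by
      rw [hE]
      exact mem_insert_of_mem (mem_singleton_self _)
    exact mem_of_mem_erase (mem_of_mem_erase this)
  have hmask : ofMask (P ^^^ 2 ^ j) = {u, v} := by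
    rw [← hE, ← mask_erase hP]
    ext a
    rw [mem_ofMask, Nat.testBit_xor, Nat.testBit_two_pow, mem_erase, mem_ofMask]
    by_cases ha : a = z
    · subst ha
      simp [hz, hb]
    · have h1 : ¬ j = a.val := fun h => ha (Fin.ext h.symm)
      simp [h1, ha]
  have hlt : P ^^^ 2 ^ j < 2 ^ 13 :=
    Nat.xor_lt_two_pow (P_lt hP) (Nat.pow_lt_pow_right (by norm_num) (by omega))
  have h1 : ∑ q ∈ quads, cofj P j (mk q) * ex B q = Lam B {u, v} := by
    unfold Lam LamW
    rw [sum_filter]
    refine sum_congr rfl fun q hq => ?_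
    rw [cofj_light hj hb]
    have h2 : Nat.land (Nat.xor P (Nat.pow 2 j)) (mk q) = (P ^^^ 2 ^ j) &&& mk q := rfl
    have h3 : Nat.xor P (Nat.pow 2 j) = P ^^^ 2 ^ j := rfl
    rw [h2, h3]
    have h4 := ofMask_subset (b := mk q) hlt
    rw [hmask, ofMask_mk] at h4
    by_cases h5 : {u, v} ⊆ q
    · rw [if_pos (h4.1 h5), if_pos h5, Nat.one_mul]
    · rw [if_neg (fun h => h5 (h4.2 h)), if_neg h5, Nat.zero_mul]
  rw [h1, Lam_light hX hu hv huv]

theorem sum_cof_le (hX : XVec B 12 Y) (h11 : (11 : Fin 13) ∈ Y) (hP : P = mk (Y.erase 11))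
    {j : ℕ} (hj : j < 12) : ∑ q ∈ quads, cofj P j (mk q) * ex B q ≤ cap P j := by
  unfold cap
  split_ifs with h1 h2
  · subst h1
    exact sum_cof_11 hX h11 hP
  · exact sum_cof_light hX h11 hP (by omega) h2
  · exact sum_cof_heavy hX h11 hP (by omega) h2

end coef

theorem cof_eq (P q : ℕ) : cof P q = pk 4 12 (fun j => cofj P j q) := by
  unfold cof
  have h : ∀ n : ℕ, @Nat.rec (fun _ => ℕ) 0 (fun j ih => Nat.add ih
      (Nat.mul (Nat.pow 16 j) (cofj P j q))) n = pk 4 n (fun j => cofj P j q) := by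
    intro n
    induction n with
    | zero => rfl
    | succ n ih =>
      rw [pk_succ, ← ih]
      have h1 : (16 : ℕ) ^ n = 2 ^ (4 * n) := by rw [pow_mul]; norm_num
      show _ + 16 ^ n * cofj P n q = _ + cofj P n q * 2 ^ (4 * n)
      rw [h1, mul_comm (2 ^ (4 * n))]
  exact h 12

end Pool.Agent.Helper34.TY
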