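import Pool.Agent.Helper34.TY.XDef

/-!
MP_8ee768_co, project TH-Y', stage X: finite checks of the coefficients of the packed test.
-/

set_option autoImplicit false
set_option maxRecDepth 20000

namespace Pool.Agent.Helper34.TY

open Pool.Agent.Helper63.SIMD Pool.Agent.Helper89.CV Pool.Agent.Helper79.CV

theorem pop_tab : ∀ k < 14, ∀ m ∈ L 13 k, pop m = k := by decide +kernel

/-- the coefficients of the quads of `{0, .., 10}` -/
def chk4 (P : ℕ) : Bool :=
  (L 11 4).all fun m => Nat.beq (c4 (spr P) (cz (spr P)) (spr m)) (cof P m)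

/-- sum of the coefficients of the pairs of `t` -/
def sum2 (SP C0 t : ℕ) : List ℕ → ℕ :=
  @List.rec ℕ (fun _ => ℕ) 0 (fun u _ ih =>
    brN (Nat.beq (Nat.land u t) u) (Nat.add (c2 SP C0 (spr u)) ih) ih)

/-- the coefficients of the pairs -/
def chk2 (P : ℕ) : Bool :=
  (L 11 3).all fun t =>
    Nat.beq (sum2 (spr P) (cz (spr P)) t (L 11 2)) (cof P (Nat.add t 2048))

/-- the coefficients of the pairs are nibbles at most 1, and the constant `thr` -/
def chk1 (P : ℕ) : Bool :=
  ((L 11 2).all fun u =>
    Nat.beq (Nat.land (c2 (spr P) (cz (spr P)) (spr u)) 0xeeeeeeeeeeee) 0 &&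
      Nat.blt (c2 (spr P) (cz (spr P)) (spr u)) 0x1000000000000)

theorem chk4_0 : ((L 11 3).drop 0 |>.take 15).all chk4 = true := by decide +kernel

theorem chk4_1 : ((L 11 3).drop 15 |>.take 15).all chk4 = true := by decide +kernel

theorem chk4_2 : ((L 11 3).drop 30 |>.take 15).all chk4 = true := by decide +kernel

theorem chk4_3 : ((L 11 3).drop 45 |>.take 15).all chk4 = true := by decide +kernel

theorem chk4_4 : ((L 11 3).drop 60 |>.take 15).all chk4 = true := by decide +kernel

theorem chk4_5 : ((L 11 3).drop 75 |>.take 15).all chk4 = true := by decide +kernel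

theorem chk4_6 : ((L 11 3).drop 90 |>.take 15).all chk4 = true := by decide +kernel

theorem chk4_7 : ((L 11 3).drop 105 |>.take 15).all chk4 = true := by decide +kernel

theorem chk4_8 : ((L 11 3).drop 120 |>.take 15).all chk4 = true := by decide +kernel

theorem chk4_9 : ((L 11 3).drop 135 |>.take 15).all chk4 = true := by decide +kernel

theorem chk4_10 : ((L 11 3).drop 150 |>.take 15).all chk4 = true := by decide +kernel

theorem chk2_0 : ((L 11 3).drop 0 |>.take 15).all chk2 = true := by decide +kernel

theorem chk2_1 : ((L 11 3).drop 15 |>.take 15).all chk2 = true := by decide +kernel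

theorem chk2_2 : ((L 11 3).drop 30 |>.take 15).all chk2 = true := by decide +kernel

theorem chk2_3 : ((L 11 3).drop 45 |>.take 15).all chk2 = true := by decide +kernel

theorem chk2_4 : ((L 11 3).drop 60 |>.take 15).all chk2 = true := by decide +kernel

theorem chk2_5 : ((L 11 3).drop 75 |>.take 15).all chk2 = true := by decide +kernel

theorem chk2_6 : ((L 11 3).drop 90 |>.take 15).all chk2 = true := by decide +kernel

theorem chk2_7 : ((L 11 3).drop 105 |>.take 15).all chk2 = true := by decide +kernel

theorem chk2_8 : ((L 11 3).drop 120 |>.take 15).all chk2 = true := by decide +kernel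

theorem chk2_9 : ((L 11 3).drop 135 |>.take 15).all chk2 = true := by decide +kernel

theorem chk2_10 : ((L 11 3).drop 150 |>.take 15).all chk2 = true := by decide +kernel

theorem chk1_all : (L 11 3).all chk1 = true := by decide +kernel

theorem split11 {α : Type} (l : List α) (p : α → Bool) (hl : l.length ≤ 165)
    (h : ∀ k < 11, ((l.drop (15 * k)).take 15).all p = true) : l.all p = true := by
  rw [List.all_eq_true]
  intro x hx
  obtain ⟨i, hi, rfl⟩ := List.getElem_of_mem hx
  have h1 := h (i / 15) (by omega)
  rw [List.all_eq_true] at h1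
  refine h1 _ ?_
  rw [List.mem_take_iff_getElem]
  refine ⟨i % 15, ?_, ?_⟩
  · rw [List.length_drop]
    omega
  · rw [List.getElem_drop]
    congr 1
    omega

theorem chk4_all : (L 11 3).all chk4 = true := by
  refine split11 _ _ (by rw [length_L]; decide) fun k hk => ?_
  interval_cases k
  · exact chk4_0
  · exact chk4_1
  · exact chk4_2
  · exact chk4_3
  · exact chk4_4
  · exact chk4_5
  · exact chk4_6
  · exact chk4_7
  · exact chk4_8
  · exact chk4_9
  · exact chk4_10

theorem chk2_all : (L 11 3).all chk2 = true := by
  refine split11 _ _ (by rw [length_L]; decide) fun k hk => ?_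
  interval_cases k
  · exact chk2_0
  · exact chk2_1
  · exact chk2_2
  · exact chk2_3
  · exact chk2_4
  · exact chk2_5
  · exact chk2_6
  · exact chk2_7
  · exact chk2_8
  · exact chk2_9
  · exact chk2_10

end Pool.Agent.Helper34.TY
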